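import Pool.Agent.Mond61.PolyCert4

set_option autoImplicit false

/-! Digits of natural numbers in base `2 ^ w`: sums without carry, shifts, masks. -/

namespace Pool.Agent.Mond61

/-- the `j`-th digit of `N` in base `2 ^ w` -/
def dg (w N j : ℕ) : ℕ := N / 2 ^ (w * j) % 2 ^ w

theorem dg_lt (w N j : ℕ) : dg w N j < 2 ^ w := Nat.mod_lt _ (Nat.two_pow_pos w)

theorem dg_testBit (w N j b : ℕ) (hb : b < w) : (dg w N j).testBit b = N.testBit (b + w * j) := by
  unfold dg
  rw [Nat.testBit_mod_two_pow, Nat.testBit_div_two_pow, decide_eq_true hb, Bool.true_and]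

theorem dg_ext (w X Y : ℕ) (hw : 0 < w) (h : ∀ j, dg w X j = dg w Y j) : X = Y := by
  apply Nat.eq_of_testBit_eq
  intro i
  have h1 := congrArg (fun n => n.testBit (i % w)) (h (i / w))
  rw [dg_testBit w X _ _ (Nat.mod_lt _ hw), dg_testBit w Y _ _ (Nat.mod_lt _ hw)] at h1
  rwa [Nat.mod_add_div] at h1

theorem dg_zero (w j : ℕ) : dg w 0 j = 0 := by simp [dg]

theorem dg_shift (w X q j : ℕ) : dg w (X >>> (w * q)) j = dg w X (j + q) := by
  unfold dg
  rw [Nat.shiftRight_eq_div_pow, Nat.div_div_eq_div_mul, ← pow_add]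
  congr 3
  ring

theorem dg_land (w X Y j : ℕ) : dg w (X &&& Y) j = dg w X j &&& dg w Y j := by
  apply Nat.eq_of_testBit_eq
  intro i
  by_cases hi : i < w
  · rw [Nat.testBit_and, dg_testBit w _ _ _ hi, dg_testBit w _ _ _ hi, dg_testBit w _ _ _ hi, Nat.testBit_and]
  · have h1 : 2 ^ w ≤ 2 ^ i := Nat.pow_le_pow_right (by norm_num) (not_lt.1 hi)
    rw [Nat.testBit_and, Nat.testBit_lt_two_pow (lt_of_lt_of_le (dg_lt w (X &&& Y) j) h1),
      Nat.testBit_lt_two_pow (lt_of_lt_of_le (dg_lt w X j) h1)]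
    rfl

theorem dg_add (w X Y a b : ℕ) (hab : a + b < 2 ^ w) (hX : ∀ j, dg w X j ≤ a) (hY : ∀ j, dg w Y j ≤ b) :
    ∀ j, dg w (X + Y) j = dg w X j + dg w Y j := by
  have hp : ∀ j, 0 < 2 ^ (w * j) := fun j => Nat.two_pow_pos _
  have hm : ∀ (Z j : ℕ), Z % 2 ^ (w * (j + 1)) = Z % 2 ^ (w * j) + 2 ^ (w * j) * dg w Z j := by
    intro Z j
    rw [mul_add, mul_one, pow_add, Nat.mod_mul]
    rfl
  have key : ∀ j, X % 2 ^ (w * j) + Y % 2 ^ (w * j) < 2 ^ (w * j) := by
    intro j
    induction j with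
    | zero => simp [Nat.mod_one]
    | succ j ih =>
      rw [hm X, hm Y]
      have h1 := hX j
      have h2 := hY j
      have h3 : dg w X j + dg w Y j + 1 ≤ 2 ^ w := by omega
      calc X % 2 ^ (w * j) + 2 ^ (w * j) * dg w X j + (Y % 2 ^ (w * j) + 2 ^ (w * j) * dg w Y j)
          = (X % 2 ^ (w * j) + Y % 2 ^ (w * j)) + 2 ^ (w * j) * (dg w X j + dg w Y j) := by ring
        _ < 2 ^ (w * j) + 2 ^ (w * j) * (dg w X j + dg w Y j) := by omega
        _ = 2 ^ (w * j) * (dg w X j + dg w Y j + 1) := by ring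
        _ ≤ 2 ^ (w * j) * 2 ^ w := Nat.mul_le_mul_left _ h3
        _ = 2 ^ (w * (j + 1)) := by rw [mul_add, mul_one, pow_add]
  intro j
  have e : X + Y = (X % 2 ^ (w * j) + Y % 2 ^ (w * j)) + 2 ^ (w * j) * (X / 2 ^ (w * j) + Y / 2 ^ (w * j)) := by
    conv_lhs => rw [← Nat.mod_add_div X (2 ^ (w * j)), ← Nat.mod_add_div Y (2 ^ (w * j))]
    ring
  unfold dg
  conv_lhs => rw [e]
  rw [Nat.add_mul_div_left _ _ (hp j), Nat.div_eq_of_lt (key j), Nat.zero_add, Nat.add_mod, Nat.mod_eq_of_lt]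
  have h1 := hX j
  have h2 := hY j
  unfold dg at h1 h2
  omega

theorem dg_mul (w X c a : ℕ) (hc : c * a < 2 ^ w) (hX : ∀ j, dg w X j ≤ a) : ∀ j, dg w (c * X) j = c * dg w X j := by
  induction c with
  | zero => intro j; simp [dg_zero]
  | succ c ih =>
    have hca : c * a < 2 ^ w := lt_of_le_of_lt (Nat.mul_le_mul_right _ (Nat.le_succ c)) hc
    intro j
    rw [Nat.succ_mul, Nat.succ_mul]
    have h1 : ∀ j, dg w (c * X) j ≤ c * a := fun j => by
      rw [ih hca j]
      exact Nat.mul_le_mul_left _ (hX j)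
    rw [dg_add w (c * X) X (c * a) a (by rw [← Nat.succ_mul]; exact hc) h1 hX j, ih hca j]

/-- digits of a sum with prescribed digits at different positions -/
theorem low_lt {ι : Type*} (S : Finset ι) (f q : ι → ℕ) (w : ℕ) (hq : Set.InjOn q (S : Set ι))
    (hf : ∀ i ∈ S, f i < 2 ^ w) (t : ℕ) : ∑ i ∈ S.filter (fun i => q i < t), f i * 2 ^ (w * q i) < 2 ^ (w * t) := by
  classical
  induction t with
  | zero => simp
  | succ t ih =>
    have h1 : S.filter (fun i => q i < t + 1) = S.filter (fun i => q i < t) ∪ S.filter (fun i => q i = t) := by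
      ext i
      simp only [Finset.mem_filter, Finset.mem_union]
      constructor
      · rintro ⟨h, h'⟩
        rcases Nat.lt_succ_iff_lt_or_eq.1 h' with h' | h'
        · exact Or.inl ⟨h, h'⟩
        · exact Or.inr ⟨h, h'⟩
      · rintro (⟨h, h'⟩ | ⟨h, h'⟩)
        · exact ⟨h, by omega⟩
        · exact ⟨h, by omega⟩
    have h2 : Disjoint (S.filter (fun i => q i < t)) (S.filter (fun i => q i = t)) := by
      rw [Finset.disjoint_left]
      intro i hi hi'
      have := (Finset.mem_filter.1 hi).2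
      have := (Finset.mem_filter.1 hi').2
      omega
    rw [h1, Finset.sum_union h2]
    have h3 : ∑ i ∈ S.filter (fun i => q i = t), f i * 2 ^ (w * q i) ≤ (2 ^ w - 1) * 2 ^ (w * t) := by
      rcases (S.filter (fun i => q i = t)).eq_empty_or_nonempty with h | ⟨i, hi⟩
      · rw [h]; simp
      · have h4 : S.filter (fun i => q i = t) = {i} := by
          apply Finset.eq_singleton_iff_unique_mem.2
          refine ⟨hi, fun j hj => ?_⟩
          have a1 := Finset.mem_filter.1 hi
          have a2 := Finset.mem_filter.1 hj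
          exact hq a2.1 a1.1 (a2.2.trans a1.2.symm)
        rw [h4, Finset.sum_singleton, (Finset.mem_filter.1 hi).2]
        have := hf i (Finset.mem_filter.1 hi).1
        exact Nat.mul_le_mul_right _ (by omega)
    have h5 : 2 ^ (w * (t + 1)) = 2 ^ (w * t) + (2 ^ w - 1) * 2 ^ (w * t) := by
      have := Nat.two_pow_pos w
      obtain ⟨B, hB⟩ : ∃ B, 2 ^ w = B + 1 := ⟨2 ^ w - 1, by omega⟩
      rw [mul_add, mul_one, pow_add, hB, Nat.add_sub_cancel]
      ring
    omega

theorem dg_sum {ι : Type*} (S : Finset ι) (f q : ι → ℕ) (w : ℕ) (hq : Set.InjOn q (S : Set ι))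
    (hf : ∀ i ∈ S, f i < 2 ^ w) {i₀ : ι} (hi : i₀ ∈ S) : dg w (∑ i ∈ S, f i * 2 ^ (w * q i)) (q i₀) = f i₀ := by
  classical
  have hsplit : ∑ i ∈ S, f i * 2 ^ (w * q i) = (∑ i ∈ S.filter (fun i => q i < q i₀), f i * 2 ^ (w * q i)) +
      (f i₀ * 2 ^ (w * q i₀) + ∑ i ∈ S.filter (fun i => q i₀ < q i), f i * 2 ^ (w * q i)) := by
    rw [← Finset.add_sum_erase S _ hi, ← Finset.sum_filter_add_sum_filter_not (S.erase i₀) (fun i => q i < q i₀)]
    have e1 : (S.erase i₀).filter (fun i => q i < q i₀) = S.filter (fun i => q i < q i₀) := by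
      ext i
      simp only [Finset.mem_filter, Finset.mem_erase]
      constructor
      · rintro ⟨⟨_, h⟩, h'⟩
        exact ⟨h, h'⟩
      · rintro ⟨h, h'⟩
        refine ⟨⟨?_, h⟩, h'⟩
        rintro rfl
        exact absurd h' (lt_irrefl _)
    have e2 : (S.erase i₀).filter (fun i => ¬ q i < q i₀) = S.filter (fun i => q i₀ < q i) := by
      ext i
      simp only [Finset.mem_filter, Finset.mem_erase]
      constructor
      · rintro ⟨⟨h1, h⟩, h'⟩
        refine ⟨h, lt_of_le_of_ne (not_lt.1 h') fun h2 => h1 (hq h hi h2.symm)⟩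
      · rintro ⟨h, h'⟩
        refine ⟨⟨?_, h⟩, not_lt.2 h'.le⟩
        rintro rfl
        exact absurd h' (lt_irrefl _)
    rw [e1, e2]
    ring
  obtain ⟨H, hH⟩ : ∃ H, ∑ i ∈ S.filter (fun i => q i₀ < q i), f i * 2 ^ (w * q i) = 2 ^ (w * q i₀) * (2 ^ w * H) := by
    refine ⟨∑ i ∈ S.filter (fun i => q i₀ < q i), f i * 2 ^ (w * (q i - (q i₀ + 1))), ?_⟩
    rw [Finset.mul_sum, Finset.mul_sum]
    refine Finset.sum_congr rfl fun i hi' => ?_
    have h1 := (Finset.mem_filter.1 hi').2
    have h2 : w * q i = w * q i₀ + w + w * (q i - (q i₀ + 1)) := by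
      have : q i = q i₀ + 1 + (q i - (q i₀ + 1)) := by omega
      conv_lhs => rw [this]
      ring
    rw [h2, pow_add, pow_add]
    ring
  rw [hsplit, hH]
  have e3 : (∑ i ∈ S.filter (fun i => q i < q i₀), f i * 2 ^ (w * q i)) +
      (f i₀ * 2 ^ (w * q i₀) + 2 ^ (w * q i₀) * (2 ^ w * H)) =
      (∑ i ∈ S.filter (fun i => q i < q i₀), f i * 2 ^ (w * q i)) + 2 ^ (w * q i₀) * (f i₀ + 2 ^ w * H) := by ring
  rw [e3]
  unfold dg
  rw [Nat.add_mul_div_left _ _ (Nat.two_pow_pos _), Nat.div_eq_of_lt (low_lt S f q w hq hf (q i₀)), Nat.zero_add,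
    Nat.add_mul_mod_self_left, Nat.mod_eq_of_lt (hf i₀ hi)]

theorem dg_sum_of_notMem {ι : Type*} (S : Finset ι) (f q : ι → ℕ) (w : ℕ) (hq : Set.InjOn q (S : Set ι))
    (hf : ∀ i ∈ S, f i < 2 ^ w) (j : ℕ) (hj : ∀ i ∈ S, q i ≠ j) : dg w (∑ i ∈ S, f i * 2 ^ (w * q i)) j = 0 := by
  classical
  have h := dg_sum (Finset.insertNone S) (fun i : Option ι => i.elim 0 f) (fun i => i.elim j q) w ?_ ?_ (i₀ := none) (by simp)
  · simp only [Option.elim_none] at h
    rw [Finset.sum_insertNone] at h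
    simpa using h
  · intro a ha b hb hab
    cases a with
    | none =>
      cases b with
      | none => rfl
      | some b =>
        simp only [Option.elim_none, Option.elim_some] at hab
        exact absurd hab.symm (hj b (by simpa using hb))
    | some a =>
      cases b with
      | none =>
        simp only [Option.elim_none, Option.elim_some] at hab
        exact absurd hab (hj a (by simpa using ha))
      | some b =>
        simp only [Option.elim_some] at hab
        rw [hq (by simpa using ha) (by simpa using hb) hab]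
  · intro i hi
    cases i with
    | none => exact Nat.two_pow_pos w
    | some i => exact hf i (by simpa using hi)

end Pool.Agent.Mond61
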