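import Pool.Agent.Mond61.Contract1

set_option autoImplicit false

/-! Contraction of functionals on polynomials, and its kernel-fast version. -/

namespace Pool.Agent.Mond61

open MvPolynomial

section alg

variable {σ : Type*}

/-- `∑ coeff t g * μ (α + t)` as a linear map in `g` -/
noncomputable def ctl (μ : (σ →₀ ℕ) → ℤ) (α : σ →₀ ℕ) : MvPolynomial σ ℤ →ₗ[ℤ] ℤ :=
  (basisMonomials σ ℤ).constr ℤ fun t => μ (α + t)

/-- the contraction `g ∘ μ` -/
noncomputable def ct (g : MvPolynomial σ ℤ) (μ : (σ →₀ ℕ) → ℤ) : (σ →₀ ℕ) → ℤ := fun α => ctl μ α g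

theorem ctl_monomial_one (μ : (σ →₀ ℕ) → ℤ) (α t : σ →₀ ℕ) : ctl μ α (monomial t 1) = μ (α + t) := by
  have h := (basisMonomials σ ℤ).constr_basis ℤ (fun t => μ (α + t)) t
  rw [coe_basisMonomials] at h
  exact h

theorem ctl_monomial (μ : (σ →₀ ℕ) → ℤ) (α t : σ →₀ ℕ) (c : ℤ) : ctl μ α (monomial t c) = c * μ (α + t) := by
  have h : monomial t c = c • (monomial t (1 : ℤ)) := by rw [smul_monomial, smul_eq_mul, mul_one]
  rw [h, map_smul, ctl_monomial_one, smul_eq_mul]

theorem ctl_monomial_mul (μ : (σ →₀ ℕ) → ℤ) (α β : σ →₀ ℕ) (g : MvPolynomial σ ℤ) :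
    ctl μ α (monomial β 1 * g) = ctl μ (α + β) g := by
  refine MvPolynomial.induction_on' (P := fun g => ctl μ α (monomial β 1 * g) = ctl μ (α + β) g) g ?_ ?_
  · intro t c
    rw [monomial_mul, one_mul, ctl_monomial, ctl_monomial, add_assoc]
  · intro p q hp hq
    rw [mul_add, map_add, map_add, hp, hq]

theorem ct_mul (g h : MvPolynomial σ ℤ) (μ : (σ →₀ ℕ) → ℤ) : ct (g * h) μ = ct g (ct h μ) := by
  funext α
  refine MvPolynomial.induction_on' (P := fun g => ctl μ α (g * h) = ctl (ct h μ) α g) g ?_ ?_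
  · intro t c
    have e : monomial t c * h = c • (monomial t (1 : ℤ) * h) := by
      rw [← smul_mul_assoc, smul_monomial, smul_eq_mul, mul_one]
    rw [e, map_smul, ctl_monomial_mul, ctl_monomial, smul_eq_mul]
    rfl
  · intro p q hp hq
    rw [add_mul, map_add, map_add, hp, hq]

theorem ct_one (μ : (σ →₀ ℕ) → ℤ) : ct 1 μ = μ := by
  funext α
  have h := ctl_monomial_one μ α 0
  rw [add_zero] at h
  exact h

theorem ct_add_left (g h : MvPolynomial σ ℤ) (μ : (σ →₀ ℕ) → ℤ) : ct (g + h) μ = ct g μ + ct h μ := by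
  funext α
  exact map_add (ctl μ α) g h

theorem ct_sub_left (g h : MvPolynomial σ ℤ) (μ : (σ →₀ ℕ) → ℤ) : ct (g - h) μ = ct g μ - ct h μ := by
  funext α
  exact map_sub (ctl μ α) g h

theorem ct_monomial (t : σ →₀ ℕ) (c : ℤ) (μ : (σ →₀ ℕ) → ℤ) (α : σ →₀ ℕ) :
    ct (monomial t c) μ α = c * μ (α + t) := ctl_monomial μ α t c

end alg

/-- explicit lists of terms (exponent list, coefficient) -/
abbrev TL := List (List ℕ × ℕ)

/-- the polynomial with the terms `l` -/
noncomputable def plist (s : List ℕ) (l : TL) : MvPolynomial (Fin s.length) ℤ :=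
  (l.map fun t => monomial (toFs s t.1) (t.2 : ℤ)).sum

theorem ct_plist (s : List ℕ) (l : TL) (μ : (Fin s.length →₀ ℕ) → ℤ) (α : Fin s.length →₀ ℕ) :
    ct (plist s l) μ α = (l.map fun t => (t.2 : ℤ) * μ (α + toFs s t.1)).sum := by
  unfold plist
  induction l with
  | nil => exact map_zero (ctl μ α)
  | cons a l ih =>
    rw [List.map_cons, List.sum_cons, List.map_cons, List.sum_cons, ct_add_left, Pi.add_apply, ct_monomial, ih]

/-- sum of the coefficients -/
noncomputable def cs (l : TL) : ℕ :=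
  List.rec (motive := fun _ => ℕ) (nat_lit 0) (fun t _ ih => Nat.add t.2 ih) l

theorem cs_nil : cs [] = 0 := rfl
theorem cs_cons (t : List ℕ × ℕ) (l : TL) : cs (t :: l) = t.2 + cs l := rfl

/-- `∑ c_t (N >>> w pos t)` -/
noncomputable def shs (w : ℕ) (s : List ℕ) (N : ℕ) (l : TL) : ℕ :=
  List.rec (motive := fun _ => ℕ) (nat_lit 0)
    (fun t _ ih => Nat.add (Nat.mul t.2 (Nat.shiftRight N (Nat.mul w (pos s t.1)))) ih) l

theorem shs_nil (w : ℕ) (s : List ℕ) (N : ℕ) : shs w s N [] = 0 := rfl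
theorem shs_cons (w : ℕ) (s : List ℕ) (N : ℕ) (t : List ℕ × ℕ) (l : TL) :
    shs w s N (t :: l) = t.2 * (N >>> (w * pos s t.1)) + shs w s N l := rfl

theorem shs_dg (w : ℕ) (s : List ℕ) (N a : ℕ) (hN : ∀ j, dg w N j ≤ a) (l : TL) (hl : cs l * a < 2 ^ w) :
    ∀ j, dg w (shs w s N l) j = (l.map fun t => t.2 * dg w N (j + pos s t.1)).sum ∧ dg w (shs w s N l) j ≤ cs l * a := by
  induction l with
  | nil => intro j; rw [shs_nil, dg_zero, cs_nil]; simp
  | cons t l ih =>
    rw [cs_cons, add_mul] at hl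
    have ih := ih (by omega)
    intro j
    rw [shs_cons, cs_cons]
    have h1 : ∀ j, dg w (N >>> (w * pos s t.1)) j ≤ a := fun j => by rw [dg_shift]; exact hN _
    have h2 : ∀ j, dg w (t.2 * (N >>> (w * pos s t.1))) j = t.2 * dg w N (j + pos s t.1) := fun j => by
      rw [dg_mul w _ t.2 a (by omega) h1 j, dg_shift]
    have h3 : ∀ j, dg w (t.2 * (N >>> (w * pos s t.1))) j ≤ t.2 * a := fun j => by
      rw [h2 j]
      exact Nat.mul_le_mul_left _ (hN _)
    have h4 := dg_add w _ _ (t.2 * a) (cs l * a) hl h3 (fun j => (ih j).2) j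
    rw [h4]
    refine ⟨?_, ?_⟩
    · rw [List.map_cons, List.sum_cons, h2, (ih j).1]
    · rw [add_mul]
      exact Nat.add_le_add (h3 j) (ih j).2

/-- all exponents of weight `d` -/
noncomputable def Sd (s ws : List ℕ) (d : ℕ) : Finset (Fin s.length →₀ ℕ) :=
  ((monos ws d).map (toFs s)).toFinset

theorem mem_Sd {s ws : List ℕ} {d V : ℕ} (h : CtxOK s ws d V) (α : Fin s.length →₀ ℕ) :
    α ∈ Sd s ws d ↔ wt s ws α = d := by
  unfold Sd
  rw [List.mem_toFinset, List.mem_map]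
  constructor
  · rintro ⟨m, hm, rfl⟩
    have h3 := (mem_monos h.2.1).1 hm
    rw [wt_eq s ws h.1 m (by rw [h3.1, h.1])]
    exact h3.2
  · intro hα
    exact ⟨List.ofFn α, ofFn_mem s ws h.1 h.2.1 d α hα, toFs_ofFn s α⟩

theorem P_injOn {s ws : List ℕ} {d V : ℕ} (h : CtxOK s ws d V) : Set.InjOn (P s) (Sd s ws d : Set (Fin s.length →₀ ℕ)) := by
  intro a ha b hb hab
  rw [Finset.mem_coe, mem_Sd h] at ha hb
  exact P_inj h ha hb hab

theorem nodup_toFs {s ws : List ℕ} {d V : ℕ} (h : CtxOK s ws d V) : ((monos ws d).map (toFs s)).Nodup := by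
  have h1 := (bitChk_spec V _ 0 h.2.2).1
  have h2 : ((monos ws d).map (toFs s)).map (P s) = (monos ws d).map (pos s) := by
    rw [List.map_map]
    refine List.map_congr_left fun m hm => ?_
    exact P_toFs s m (by rw [((mem_monos h.2.1).1 hm).1, h.1])
  rw [← h2] at h1
  exact List.Nodup.of_map _ h1

/-- `∑ 2 ^ (w * pos s m)` over the exponents of weight `D` -/
noncomputable def RR (w : ℕ) (s : List ℕ) : List ℕ → ℕ → ℕ :=
  List.rec (motive := fun _ => List ℕ → ℕ → ℕ)
    (fun _ D => Bool.rec (motive := fun _ => ℕ) (nat_lit 0) (nat_lit 1) (Nat.beq D (nat_lit 0)))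
    (fun a _ ih ws D => List.rec (motive := fun _ => ℕ) (nat_lit 0)
      (fun b ws' _ => Nat.rec (motive := fun _ => ℕ) (ih ws' D)
        (fun e acc => Nat.add (Nat.shiftLeft (ih ws' (Nat.sub D (Nat.mul b (Nat.succ e)))) (Nat.mul w (Nat.mul a (Nat.succ e)))) acc)
        (Nat.div D b)) ws) s

theorem sum_flatMap' {α : Type*} (l : List α) (f : α → List ℕ) : (l.flatMap f).sum = (l.map fun a => (f a).sum).sum := by
  induction l with
  | nil => rfl
  | cons a l ih => rw [List.flatMap_cons, List.sum_append, List.map_cons, List.sum_cons, ih]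

theorem RR_eq (w : ℕ) : ∀ (s ws : List ℕ) (D : ℕ), s.length = ws.length →
    RR w s ws D = ((monos ws D).map fun m => 2 ^ (w * pos s m)).sum
  | [], [], D, _ => by
    unfold monos
    change Bool.rec (motive := fun _ => ℕ) 0 1 (Nat.beq D 0) = _
    cases D with
    | zero => simp [pos_nil]
    | succ D => rfl
  | [], b :: ws, D, h => by simp at h
  | a :: s, [], D, h => by simp at h
  | a :: s, b :: ws, D, h => by
    have h' : s.length = ws.length := by simpa using h
    have ih := fun D => RR_eq w s ws D h'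
    have key : ∀ n, (Nat.rec (motive := fun _ => ℕ) (RR w s ws D)
        (fun e acc => Nat.add (Nat.shiftLeft (RR w s ws (Nat.sub D (Nat.mul b (Nat.succ e)))) (Nat.mul w (Nat.mul a (Nat.succ e)))) acc) n : ℕ) =
        ((List.range (n + 1)).map fun e => RR w s ws (D - b * e) * 2 ^ (w * (a * e))).sum := by
      intro n
      induction n with
      | zero => simp
      | succ n ihn =>
        rw [List.range_succ, List.map_append, List.sum_append, ← ihn]
        simp only [List.map_cons, List.map_nil, List.sum_cons, List.sum_nil, Nat.add_zero]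
        rw [add_comm]
        change Nat.shiftLeft _ _ + _ = _
        congr 1
        exact Nat.shiftLeft_eq _ _
    change (Nat.rec (motive := fun _ => ℕ) (RR w s ws D)
        (fun e acc => Nat.add (Nat.shiftLeft (RR w s ws (Nat.sub D (Nat.mul b (Nat.succ e)))) (Nat.mul w (Nat.mul a (Nat.succ e)))) acc) (D / b) : ℕ) = _
    rw [key]
    unfold monos
    rw [List.map_flatMap, sum_flatMap']
    congr 1
    refine List.map_congr_left fun e _ => ?_
    rw [ih, List.map_map, ← List.sum_map_mul_right]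
    congr 1
    refine List.map_congr_left fun m _ => ?_
    change _ = 2 ^ (w * pos (a :: s) (e :: m))
    rw [pos_cons_cons, ← pow_add]
    congr 1
    ring

theorem RR_eq_sum {s ws : List ℕ} {d V : ℕ} (w : ℕ) (h : CtxOK s ws d V) :
    RR w s ws d = ∑ α ∈ Sd s ws d, 2 ^ (w * P s α) := by
  rw [RR_eq w s ws d h.1]
  unfold Sd
  rw [List.sum_toFinset _ (nodup_toFs h), List.map_map]
  congr 1
  refine List.map_congr_left fun m hm => ?_
  change _ = 2 ^ (w * P s (toFs s m))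
  rw [P_toFs s m (by rw [((mem_monos h.2.1).1 hm).1, h.1])]

/-- `N` represents the functional `μ` on the polynomials of weight `d`, `|μ| ≤ b` -/
structure Rep (s ws : List ℕ) (w H d N : ℕ) (μ : (Fin s.length →₀ ℕ) → ℤ) (b : ℕ) : Prop where
  val : N = ∑ α ∈ Sd s ws d, (μ α + H).toNat * 2 ^ (w * P s α)
  bd : ∀ α ∈ Sd s ws d, |μ α| ≤ b

theorem Rep.dg_eq {s ws : List ℕ} {w H d N : ℕ} {μ : (Fin s.length →₀ ℕ) → ℤ} {b V : ℕ} (h : CtxOK s ws d V)
    (hN : Rep s ws w H d N μ b) (hb : b ≤ H) (hH : 2 * H < 2 ^ w) {α : Fin s.length →₀ ℕ} (hα : α ∈ Sd s ws d) :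
    ((dg w N (P s α) : ℕ) : ℤ) = μ α + H := by
  have h1 : ∀ α ∈ Sd s ws d, (μ α + H).toNat < 2 ^ w := by
    intro α hα
    have := hN.bd α hα
    rw [abs_le] at this
    have : (μ α + H).toNat ≤ 2 * H := by
      rw [Int.toNat_le]
      push_cast
      have hb' : (b : ℤ) ≤ H := by exact_mod_cast hb
      linarith [this.2]
    omega
  rw [hN.val, dg_sum (Sd s ws d) _ (P s) w (P_injOn h) h1 hα, Int.toNat_of_nonneg]
  have := hN.bd α hα
  rw [abs_le] at this
  have hb' : (b : ℤ) ≤ H := by exact_mod_cast hb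
  linarith [this.1]

theorem Rep.dg_le {s ws : List ℕ} {w H d N : ℕ} {μ : (Fin s.length →₀ ℕ) → ℤ} {b V : ℕ} (h : CtxOK s ws d V)
    (hN : Rep s ws w H d N μ b) (hb : b ≤ H) (hH : 2 * H < 2 ^ w) (j : ℕ) : dg w N j ≤ 2 * H := by
  have h0 : ∀ α ∈ Sd s ws d, (μ α + H).toNat ≤ 2 * H := by
    intro α hα
    have := hN.bd α hα
    rw [abs_le] at this
    rw [Int.toNat_le]
    push_cast
    have hb' : (b : ℤ) ≤ H := by exact_mod_cast hb
    linarith [this.2]
  have h1 : ∀ α ∈ Sd s ws d, (μ α + H).toNat < 2 ^ w := fun α hα => lt_of_le_of_lt (h0 α hα) hH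
  by_cases hj : ∃ α ∈ Sd s ws d, P s α = j
  · obtain ⟨α, hα, rfl⟩ := hj
    rw [hN.val, dg_sum (Sd s ws d) _ (P s) w (P_injOn h) h1 hα]
    exact h0 α hα
  · rw [hN.val, dg_sum_of_notMem (Sd s ws d) _ (P s) w (P_injOn h) h1 j]
    · exact Nat.zero_le _
    · intro α hα hα'
      exact hj ⟨α, hα, hα'⟩

/-- masking -/
theorem land_mask {ι : Type*} (S : Finset ι) (q : ι → ℕ) (w : ℕ) (hw : 0 < w) (hq : Set.InjOn q (S : Set ι)) (X : ℕ) :
    X &&& ((2 ^ w - 1) * ∑ i ∈ S, 2 ^ (w * q i)) = ∑ i ∈ S, dg w X (q i) * 2 ^ (w * q i) := by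
  have hp := Nat.two_pow_pos w
  have hM : (2 ^ w - 1) * ∑ i ∈ S, 2 ^ (w * q i) = ∑ i ∈ S, (fun _ => 2 ^ w - 1) i * 2 ^ (w * q i) := by
    rw [Finset.mul_sum]
  rw [hM]
  refine dg_ext w _ _ hw fun j => ?_
  rw [dg_land]
  by_cases hj : ∃ i ∈ S, q i = j
  · obtain ⟨i, hi, rfl⟩ := hj
    rw [dg_sum S (fun _ => 2 ^ w - 1) q w hq (fun _ _ => by omega) hi,
      dg_sum S (fun i => dg w X (q i)) q w hq (fun _ _ => dg_lt w X _) hi, Nat.and_two_pow_sub_one_eq_mod,
      Nat.mod_eq_of_lt (dg_lt w X _)]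
  · rw [dg_sum_of_notMem S (fun _ => 2 ^ w - 1) q w hq (fun _ _ => by omega) j fun i hi h => hj ⟨i, hi, h⟩,
      dg_sum_of_notMem S (fun i => dg w X (q i)) q w hq (fun _ _ => dg_lt w X _) j fun i hi h => hj ⟨i, hi, h⟩,
      Nat.and_zero]

end Pool.Agent.Mond61
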