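import Pool.Agent.Mond61.Contract2

set_option autoImplicit false

/-! The contraction step on packed functionals. -/

namespace Pool.Agent.Mond61

open MvPolynomial

theorem P_add (s : List ℕ) (a b : Fin s.length →₀ ℕ) : P s (a + b) = P s a + P s b := by
  unfold P
  rw [← Finset.sum_add_distrib]
  exact Finset.sum_congr rfl fun i _ => by rw [Finsupp.add_apply, mul_add]

theorem wt_add (s ws : List ℕ) (a b : Fin s.length →₀ ℕ) : wt s ws (a + b) = wt s ws a + wt s ws b := map_add _ _ _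

/-- all terms have weight `e` -/
def TW (s ws : List ℕ) (e : ℕ) (l : TL) : Prop := ∀ t ∈ l, t.1.length = s.length ∧ pos ws t.1 = e

/-- one summand of a contraction: packed functional, positive and negative terms -/
structure CD where
  N : ℕ
  gp : TL
  gm : TL

noncomputable def shP (w : ℕ) (s : List ℕ) (L : List CD) : ℕ :=
  List.rec (motive := fun _ => ℕ) (nat_lit 0) (fun t _ ih => Nat.add (shs w s t.N t.gp) ih) L

noncomputable def shM (w : ℕ) (s : List ℕ) (L : List CD) : ℕ :=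
  List.rec (motive := fun _ => ℕ) (nat_lit 0) (fun t _ ih => Nat.add (shs w s t.N t.gm) ih) L

noncomputable def csP (L : List CD) : ℕ :=
  List.rec (motive := fun _ => ℕ) (nat_lit 0) (fun t _ ih => Nat.add (cs t.gp) ih) L

noncomputable def csM (L : List CD) : ℕ :=
  List.rec (motive := fun _ => ℕ) (nat_lit 0) (fun t _ ih => Nat.add (cs t.gm) ih) L

/-- the packed functional `∑ (gp - gm) ∘ μ` -/
noncomputable def conK (w : ℕ) (s : List ℕ) (H R : ℕ) (L : List CD) : ℕ :=
  Nat.sub (Nat.add (Nat.land (shP w s L) (Nat.mul (Nat.sub (Nat.pow (nat_lit 2) w) (nat_lit 1)) R))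
      (Nat.mul (Nat.mul H (Nat.add (nat_lit 1) (csM L))) R))
    (Nat.add (Nat.land (shM w s L) (Nat.mul (Nat.sub (Nat.pow (nat_lit 2) w) (nat_lit 1)) R))
      (Nat.mul (Nat.mul H (csP L)) R))

/-- the functional `∑ (gp - gm) ∘ μ` -/
noncomputable def conF (s : List ℕ) (L : List (CD × ((Fin s.length →₀ ℕ) → ℤ))) : (Fin s.length →₀ ℕ) → ℤ :=
  fun α => (L.map fun c => ct (plist s c.1.gp - plist s c.1.gm) c.2 α).sum

section

variable {s ws : List ℕ} {w H d d' e b V : ℕ}

theorem shs_val (h : CtxOK s ws d V) {N : ℕ} {μ : (Fin s.length →₀ ℕ) → ℤ} (hN : Rep s ws w H d N μ b) (hb : b ≤ H)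
    (hH : 2 * H < 2 ^ w) (hd : d' + e = d) (l : TL) (hl : TW s ws e l) (hc : cs l * (2 * H) < 2 ^ w)
    {α : Fin s.length →₀ ℕ} (hα : wt s ws α = d') :
    ((dg w (shs w s N l) (P s α) : ℕ) : ℤ) = ct (plist s l) μ α + cs l * H := by
  rw [(shs_dg w s N (2 * H) (hN.dg_le h hb hH) l hc (P s α)).1, ct_plist]
  clear hc
  induction l with
  | nil => simp [cs_nil]
  | cons t l ih =>
    have ht := hl t (by simp)
    have ih := ih fun t' h' => hl t' (by simp [h'])
    rw [List.map_cons, List.sum_cons, List.map_cons, List.sum_cons, cs_cons, Nat.cast_add, ih, Nat.cast_mul]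
    have h1 : P s α + pos s t.1 = P s (α + toFs s t.1) := by
      rw [P_add, P_toFs s _ ht.1]
    have h2 : α + toFs s t.1 ∈ Sd s ws d := by
      rw [mem_Sd h, wt_add, hα, wt_eq s ws h.1 _ ht.1, ht.2, hd]
    rw [h1, hN.dg_eq h hb hH h2]
    push_cast
    ring

theorem ct_bound (h : CtxOK s ws d V) {N : ℕ} {μ : (Fin s.length →₀ ℕ) → ℤ} (hN : Rep s ws w H d N μ b)
    (hd : d' + e = d) (l : TL) (hl : TW s ws e l) {α : Fin s.length →₀ ℕ} (hα : wt s ws α = d') :
    |ct (plist s l) μ α| ≤ ((cs l * b : ℕ) : ℤ) := by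
  rw [ct_plist]
  induction l with
  | nil => simp [cs_nil]
  | cons t l ih =>
    have ht := hl t (by simp)
    have ih := ih fun t' h' => hl t' (by simp [h'])
    rw [List.map_cons, List.sum_cons, cs_cons]
    have h2 : α + toFs s t.1 ∈ Sd s ws d := by
      rw [mem_Sd h, wt_add, hα, wt_eq s ws h.1 _ ht.1, ht.2, hd]
    refine (abs_add_le _ _).trans ?_
    rw [abs_mul, abs_of_nonneg (Int.natCast_nonneg t.2)]
    have h3 := mul_le_mul_of_nonneg_left (hN.bd _ h2) (Int.natCast_nonneg t.2)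
    push_cast at ih ⊢
    linarith

theorem shP_dg {L : List CD} {a : ℕ} (hN : ∀ c ∈ L, ∀ j, dg w c.N j ≤ a) (hl : csP L * a < 2 ^ w) :
    ∀ j, dg w (shP w s L) j = (L.map fun c => dg w (shs w s c.N c.gp) j).sum ∧ dg w (shP w s L) j ≤ csP L * a := by
  induction L with
  | nil =>
    intro j
    change dg w 0 j = _ ∧ dg w 0 j ≤ _
    rw [dg_zero]
    simp
  | cons c L ih =>
    have e1 : csP (c :: L) = cs c.gp + csP L := rfl
    have e2 : shP w s (c :: L) = shs w s c.N c.gp + shP w s L := rfl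
    rw [e1, add_mul] at hl
    have ih := ih (fun c' h' => hN c' (by simp [h'])) (by omega)
    have h1 := shs_dg w s c.N a (hN c (by simp)) c.gp (by omega)
    intro j
    have h4 := dg_add w _ _ (cs c.gp * a) (csP L * a) hl (fun j => (h1 j).2) (fun j => (ih j).2) j
    rw [e1, e2, h4, List.map_cons, List.sum_cons, (ih j).1]
    refine ⟨rfl, ?_⟩
    rw [← (ih j).1, add_mul]
    exact Nat.add_le_add (h1 j).2 (ih j).2

theorem shM_dg {L : List CD} {a : ℕ} (hN : ∀ c ∈ L, ∀ j, dg w c.N j ≤ a) (hl : csM L * a < 2 ^ w) :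
    ∀ j, dg w (shM w s L) j = (L.map fun c => dg w (shs w s c.N c.gm) j).sum ∧ dg w (shM w s L) j ≤ csM L * a := by
  induction L with
  | nil =>
    intro j
    change dg w 0 j = _ ∧ dg w 0 j ≤ _
    rw [dg_zero]
    simp
  | cons c L ih =>
    have e1 : csM (c :: L) = cs c.gm + csM L := rfl
    have e2 : shM w s (c :: L) = shs w s c.N c.gm + shM w s L := rfl
    rw [e1, add_mul] at hl
    have ih := ih (fun c' h' => hN c' (by simp [h'])) (by omega)
    have h1 := shs_dg w s c.N a (hN c (by simp)) c.gm (by omega)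
    intro j
    have h4 := dg_add w _ _ (cs c.gm * a) (csM L * a) hl (fun j => (h1 j).2) (fun j => (ih j).2) j
    rw [e1, e2, h4, List.map_cons, List.sum_cons, (ih j).1]
    refine ⟨rfl, ?_⟩
    rw [← (ih j).1, add_mul]
    exact Nat.add_le_add (h1 j).2 (ih j).2

/-- values of the sums -/
theorem sum_vals (h : CtxOK s ws d V) (hb : b ≤ H) (hH : 2 * H < 2 ^ w) (hd : d' + e = d)
    (L : List (CD × ((Fin s.length →₀ ℕ) → ℤ))) (hL : ∀ c ∈ L, Rep s ws w H d c.1.N c.2 b)
    (hp : ∀ c ∈ L, TW s ws e c.1.gp) (hm : ∀ c ∈ L, TW s ws e c.1.gm)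
    (hP : csP (L.map Prod.fst) * (2 * H) < 2 ^ w) (hM : csM (L.map Prod.fst) * (2 * H) < 2 ^ w)
    {α : Fin s.length →₀ ℕ} (hα : wt s ws α = d') :
    ((dg w (shP w s (L.map Prod.fst)) (P s α) : ℕ) : ℤ) - (dg w (shM w s (L.map Prod.fst)) (P s α) : ℕ) =
      conF s L α + csP (L.map Prod.fst) * H - csM (L.map Prod.fst) * H ∧
      |conF s L α| ≤ (((csP (L.map Prod.fst) + csM (L.map Prod.fst)) * b : ℕ) : ℤ) := by
  have hN : ∀ c ∈ L.map Prod.fst, ∀ j, dg w c.N j ≤ 2 * H := by
    intro c hc j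
    obtain ⟨c', hc', rfl⟩ := List.mem_map.1 hc
    exact (hL c' hc').dg_le h hb hH j
  rw [(shP_dg hN hP (P s α)).1, (shM_dg hN hM (P s α)).1]
  clear hN
  induction L with
  | nil => simp [conF, csP, csM]
  | cons c L ih =>
    have e1 : csP ((c :: L).map Prod.fst) = cs c.1.gp + csP (L.map Prod.fst) := rfl
    have e2 : csM ((c :: L).map Prod.fst) = cs c.1.gm + csM (L.map Prod.fst) := rfl
    have e3 : conF s (c :: L) α = ct (plist s c.1.gp - plist s c.1.gm) c.2 α + conF s L α := by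
      simp [conF]
    rw [e1, add_mul] at hP
    rw [e2, add_mul] at hM
    obtain ⟨ih1, ih2⟩ := ih (fun c' h' => hL c' (by simp [h'])) (fun c' h' => hp c' (by simp [h']))
      (fun c' h' => hm c' (by simp [h'])) (by omega) (by omega)
    have a1 := shs_val h (hL c (by simp)) hb hH hd c.1.gp (hp c (by simp)) (by omega) hα
    have a2 := shs_val h (hL c (by simp)) hb hH hd c.1.gm (hm c (by simp)) (by omega) hα
    have a3 := ct_bound h (hL c (by simp)) hd c.1.gp (hp c (by simp)) hα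
    have a4 := ct_bound h (hL c (by simp)) hd c.1.gm (hm c (by simp)) hα
    rw [e1, e2, e3, ct_sub_left, Pi.sub_apply]
    refine ⟨?_, ?_⟩
    · rw [List.map_cons, List.map_cons, List.sum_cons, List.map_cons, List.sum_cons]
      push_cast at ih1 a1 a2 ⊢
      linarith
    · rw [abs_le] at a3 a4 ih2 ⊢
      push_cast at a3 a4 ih2 ⊢
      constructor
      · linarith [a3.1, a4.2, ih2.1]
      · linarith [a3.2, a4.1, ih2.2]

theorem con_rep (h : CtxOK s ws d V) {V' : ℕ} (h' : CtxOK s ws d' V') (hw : 0 < w) (hb : b ≤ H) (hH : 2 * H < 2 ^ w) (hd : d' + e = d)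
    (L : List (CD × ((Fin s.length →₀ ℕ) → ℤ))) (hL : ∀ c ∈ L, Rep s ws w H d c.1.N c.2 b)
    (hp : ∀ c ∈ L, TW s ws e c.1.gp) (hm : ∀ c ∈ L, TW s ws e c.1.gm)
    (hP : csP (L.map Prod.fst) * (2 * H) < 2 ^ w) (hM : csM (L.map Prod.fst) * (2 * H) < 2 ^ w)
    {b' : ℕ} (hb1 : (csP (L.map Prod.fst) + csM (L.map Prod.fst)) * b ≤ b') (hb2 : b' ≤ H) :
    Rep s ws w H d' (conK w s H (RR w s ws d') (L.map Prod.fst)) (conF s L) b' := by
  set Lk := L.map Prod.fst with hLk
  have hv := fun α hα => sum_vals h hb hH hd L hL hp hm hP hM (α := α) hα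
  have hbd : ∀ α ∈ Sd s ws d', |conF s L α| ≤ b' := by
    intro α hα
    rw [mem_Sd h'] at hα
    refine (hv α hα).2.trans ?_
    exact_mod_cast hb1
  refine ⟨?_, hbd⟩
  have hR := RR_eq_sum w h'
  have hl1 := land_mask (Sd s ws d') (P s) w hw (P_injOn h') (shP w s Lk)
  have hl2 := land_mask (Sd s ws d') (P s) w hw (P_injOn h') (shM w s Lk)
  rw [← hR] at hl1 hl2
  have key : (Nat.land (shP w s Lk) ((2 ^ w - 1) * RR w s ws d')) + H * (1 + csM Lk) * RR w s ws d' =
      (∑ α ∈ Sd s ws d', (conF s L α + H).toNat * 2 ^ (w * P s α)) +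
        (Nat.land (shM w s Lk) ((2 ^ w - 1) * RR w s ws d') + H * csP Lk * RR w s ws d') := by
    have l1 : Nat.land (shP w s Lk) ((2 ^ w - 1) * RR w s ws d') = _ := hl1
    have l2 : Nat.land (shM w s Lk) ((2 ^ w - 1) * RR w s ws d') = _ := hl2
    rw [l1, l2, hR, Finset.mul_sum, Finset.mul_sum, ← Finset.sum_add_distrib, ← Finset.sum_add_distrib,
      ← Finset.sum_add_distrib]
    refine Finset.sum_congr rfl fun α hα => ?_
    rw [← add_mul, ← add_mul, ← add_mul]
    congr 1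
    have h1 := (hv α ((mem_Sd h' α).1 hα)).1
    have h2 := hbd α hα
    rw [abs_le] at h2
    have h3 : ((conF s L α + H).toNat : ℤ) = conF s L α + H := by
      apply Int.toNat_of_nonneg
      have : (b' : ℤ) ≤ H := by exact_mod_cast hb2
      linarith [h2.1]
    zify
    rw [h3]
    linarith
  unfold conK
  change (Nat.land (shP w s Lk) ((2 ^ w - 1) * RR w s ws d')) + H * (1 + csM Lk) * RR w s ws d' -
    (Nat.land (shM w s Lk) ((2 ^ w - 1) * RR w s ws d') + H * csP Lk * RR w s ws d') = _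
  rw [key, Nat.add_sub_cancel]

end

end Pool.Agent.Mond61
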