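import Pool.Agent.Mond61.Contract3

set_option autoImplicit false

/-! Checks on packed functionals: vanishing on monomials and on products of powers. -/

namespace Pool.Agent.Mond61

open MvPolynomial

/-- all digits of `N` at the positions of `R` are `H` -/
noncomputable def zeroAt (w H R N : ℕ) : Bool :=
  Nat.beq (Nat.land N (Nat.mul (Nat.sub (Nat.pow (nat_lit 2) w) (nat_lit 1)) R)) (Nat.mul H R)

theorem zeroAt_spec {ι : Type*} (S : Finset ι) (q : ι → ℕ) {w H N : ℕ} (hw : 0 < w) (hq : Set.InjOn q (S : Set ι))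
    (hH : H < 2 ^ w) (h : zeroAt w H (∑ i ∈ S, 2 ^ (w * q i)) N = true) : ∀ i ∈ S, dg w N (q i) = H := by
  intro i hi
  have h1 : Nat.land N ((2 ^ w - 1) * ∑ i ∈ S, 2 ^ (w * q i)) = H * ∑ i ∈ S, 2 ^ (w * q i) := Nat.eq_of_beq_eq_true h
  have h2 := land_mask S q w hw hq N
  have h3 : ∑ i ∈ S, dg w N (q i) * 2 ^ (w * q i) = ∑ i ∈ S, (fun _ => H) i * 2 ^ (w * q i) := by
    rw [← h2, ← Finset.mul_sum]
    exact h1
  have h4 := congrArg (fun n => dg w n (q i)) h3
  simp only at h4
  rwa [dg_sum S (fun i => dg w N (q i)) q w hq (fun _ _ => dg_lt w N _) hi,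
    dg_sum S (fun _ => H) q w hq (fun _ _ => hH) hi] at h4

/-- vanishing on all monomials of weight `d` -/
theorem zero_full {s ws : List ℕ} {w H d N b V : ℕ} {μ : (Fin s.length →₀ ℕ) → ℤ} (h : CtxOK s ws d V) (hw : 0 < w)
    (hN : Rep s ws w H d N μ b) (hb : b ≤ H) (hH : 2 * H < 2 ^ w) (hz : zeroAt w H (RR w s ws d) N = true)
    (α : Fin s.length →₀ ℕ) (hα : wt s ws α = d) : μ α = 0 := by
  rw [RR_eq_sum w h] at hz
  have hα' : α ∈ Sd s ws d := (mem_Sd h α).2 hα
  have h1 := zeroAt_spec (Sd s ws d) (P s) hw (P_injOn h) (by omega) hz α hα'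
  have h2 := hN.dg_eq h hb hH hα'
  rw [h1] at h2
  linarith

theorem nodup_monos {s ws : List ℕ} {d V : ℕ} (h : CtxOK s ws d V) : (monos ws d).Nodup :=
  List.Nodup.of_map _ (bitChk_spec V _ 0 h.2.2).1

theorem RR_eq_sum' {s ws : List ℕ} {d V : ℕ} (w : ℕ) (h : CtxOK s ws d V) :
    RR w s ws d = ∑ m ∈ (monos ws d).toFinset, 2 ^ (w * pos s m) := by
  rw [RR_eq w s ws d h.1, List.sum_toFinset _ (nodup_monos h)]

/-- `(s', ws')` are the variables which are left over by `em` -/
def SubOK (s ws s' ws' : List ℕ) (em : List ℕ → List ℕ) : Prop :=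
  ∀ m', m'.length = ws'.length → (em m').length = s.length ∧ pos ws (em m') = pos ws' m' ∧ pos s (em m') = pos s' m'

/-- vanishing on the monomials in the variables `(s', ws')` -/
theorem zero_sub {s ws s' ws' : List ℕ} {em : List ℕ → List ℕ} {w H d N b V V' : ℕ} {μ : (Fin s.length →₀ ℕ) → ℤ}
    (h : CtxOK s ws d V) (h' : CtxOK s' ws' d V') (hs : SubOK s ws s' ws' em) (hw : 0 < w)
    (hN : Rep s ws w H d N μ b) (hb : b ≤ H) (hH : 2 * H < 2 ^ w) (hz : zeroAt w H (RR w s' ws' d) N = true)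
    (m' : List ℕ) (hm' : m' ∈ monos ws' d) : μ (toFs s (em m')) = 0 := by
  rw [RR_eq_sum' w h'] at hz
  have h0 := (mem_monos h'.2.1).1 hm'
  obtain ⟨e1, e2, e3⟩ := hs m' h0.1
  have h1 := zeroAt_spec (monos ws' d).toFinset (pos s') hw (fun a ha b hb hab => by
    rw [Finset.mem_coe, List.mem_toFinset] at ha hb
    exact h'.inj ha hb hab) (by omega) hz m' (by rwa [List.mem_toFinset])
  have hα' : toFs s (em m') ∈ Sd s ws d := by
    rw [mem_Sd h, wt_eq s ws h.1 _ e1, e2, h0.2]
  have h2 := hN.dg_eq h hb hH hα'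
  rw [P_toFs s _ e1, e3, h1] at h2
  linarith

/-- a polynomial given by its positive and negative terms, of weight `e` -/
structure FD where
  gp : TL
  gm : TL
  e : ℕ

noncomputable def FD.poly (s : List ℕ) (F : FD) : MvPolynomial (Fin s.length) ℤ := plist s F.gp - plist s F.gm

/-- the product of powers -/
noncomputable def prodP (s : List ℕ) (Fs : List FD) (ks : List ℕ) : MvPolynomial (Fin s.length) ℤ :=
  (List.zipWith (fun F k => F.poly s ^ k) Fs ks).prod

/-- its weight -/
def wP (Fs : List FD) (ks : List ℕ) : ℕ := (List.zipWith (fun F k => F.e * k) Fs ks).sum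

/-- the check that all products of powers, of weight at most `d`, kill the functional on the monomials of `(s', ws')` -/
noncomputable def chkL (w : ℕ) (s ws s' ws' : List ℕ) (H : ℕ) (Fs : List FD) : ℕ → ℕ → ℕ → Bool :=
  List.rec (motive := fun _ => ℕ → ℕ → ℕ → Bool)
    (fun d N _ => zeroAt w H (RR w s' ws' d) N)
    (fun F _ ih d N b => Nat.rec (motive := fun _ => ℕ → ℕ → ℕ → Bool)
      (fun d N b => ih d N b)
      (fun _ ih2 d N b => and (ih d N b)
        (and (and (Nat.blt (Nat.mul (cs F.gp) (Nat.mul (nat_lit 2) H)) (Nat.pow (nat_lit 2) w))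
          (and (Nat.blt (Nat.mul (cs F.gm) (Nat.mul (nat_lit 2) H)) (Nat.pow (nat_lit 2) w))
            (Nat.ble (Nat.mul (Nat.add (cs F.gp) (cs F.gm)) b) H)))
          (ih2 (Nat.sub d F.e) (conK w s H (RR w s ws (Nat.sub d F.e)) [⟨N, F.gp, F.gm⟩])
            (Nat.mul (Nat.add (cs F.gp) (cs F.gm)) b))))
      (Nat.div d F.e) d N b) Fs

/-- the products of powers kill the functional -/
def Good (s ws' : List ℕ) (em : List ℕ → List ℕ) (Fs : List FD) (d : ℕ) (μ : (Fin s.length →₀ ℕ) → ℤ) : Prop :=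
  ∀ ks : List ℕ, ks.length = Fs.length → ∀ d', wP Fs ks + d' = d → ∀ m' ∈ monos ws' d', ct (prodP s Fs ks) μ (toFs s (em m')) = 0

theorem ct_pow_succ {σ : Type*} (g : MvPolynomial σ ℤ) (k : ℕ) (μ : (σ →₀ ℕ) → ℤ) : ct (g ^ (k + 1)) μ = ct (g ^ k) (ct g μ) := by
  rw [pow_succ, ct_mul]

theorem conF_single (s : List ℕ) (c : CD) (μ : (Fin s.length →₀ ℕ) → ℤ) :
    conF s [(c, μ)] = ct (plist s c.gp - plist s c.gm) μ := by
  funext α
  simp [conF]

theorem chkL_spec {s ws s' ws' Vs Vs' : List ℕ} {em : List ℕ → List ℕ} {w H : ℕ} (hV : AllOK s ws Vs)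
    (hV' : AllOK s' ws' Vs') (hs : SubOK s ws s' ws' em) (hw : 0 < w) (hH : 2 * H < 2 ^ w) (Fs : List FD)
    (hF : ∀ F ∈ Fs, 0 < F.e ∧ TW s ws F.e F.gp ∧ TW s ws F.e F.gm) :
    ∀ (d N b : ℕ) (μ : (Fin s.length →₀ ℕ) → ℤ), d < Vs.length → d < Vs'.length → b ≤ H → Rep s ws w H d N μ b →
      chkL w s ws s' ws' H Fs d N b = true → Good s ws' em Fs d μ := by
  induction Fs with
  | nil =>
    intro d N b μ hd hd' hb hN hc ks hks d' hd2 m' hm'
    have hks : ks = [] := List.eq_nil_of_length_eq_zero hks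
    subst hks
    have e1 : prodP s [] [] = 1 := rfl
    have e2 : d' = d := by
      have : wP [] [] = 0 := rfl
      omega
    subst e2
    rw [e1, ct_one]
    exact zero_sub (hV d' hd) (hV' d' hd') hs hw hN hb hH hc m' hm'
  | cons F Fs ih =>
    have ih := ih fun F' h' => hF F' (by simp [h'])
    obtain ⟨hF0, hF1, hF2⟩ := hF F (by simp)
    -- inner loop
    have loop : ∀ (n d N b : ℕ) (μ : (Fin s.length →₀ ℕ) → ℤ), n * F.e ≤ d → d < Vs.length → d < Vs'.length → b ≤ H →
        Rep s ws w H d N μ b → (Nat.rec (motive := fun _ => ℕ → ℕ → ℕ → Bool)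
          (fun d N b => chkL w s ws s' ws' H Fs d N b)
          (fun _ ih2 d N b => and (chkL w s ws s' ws' H Fs d N b)
            (and (and (Nat.blt (Nat.mul (cs F.gp) (Nat.mul (nat_lit 2) H)) (Nat.pow (nat_lit 2) w))
              (and (Nat.blt (Nat.mul (cs F.gm) (Nat.mul (nat_lit 2) H)) (Nat.pow (nat_lit 2) w))
                (Nat.ble (Nat.mul (Nat.add (cs F.gp) (cs F.gm)) b) H)))
              (ih2 (Nat.sub d F.e) (conK w s H (RR w s ws (Nat.sub d F.e)) [⟨N, F.gp, F.gm⟩])
                (Nat.mul (Nat.add (cs F.gp) (cs F.gm)) b))))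
          n d N b : Bool) = true → ∀ k ≤ n, Good s ws' em Fs (d - F.e * k) (ct (F.poly s ^ k) μ) := by
      intro n
      induction n with
      | zero =>
        intro d N b μ _ hd hd' hb hN hc k hk
        obtain rfl : k = 0 := by omega
        rw [pow_zero, ct_one]
        exact ih d N b μ hd hd' hb hN hc
      | succ n ihn =>
        intro d N b μ hnd hd hd' hb hN hc k hk
        have hc' : and (chkL w s ws s' ws' H Fs d N b)
            (and (and (Nat.blt (cs F.gp * (2 * H)) (2 ^ w))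
              (and (Nat.blt (cs F.gm * (2 * H)) (2 ^ w)) (Nat.ble ((cs F.gp + cs F.gm) * b) H)))
              (Nat.rec (motive := fun _ => ℕ → ℕ → ℕ → Bool)
                (fun d N b => chkL w s ws s' ws' H Fs d N b)
                (fun _ ih2 d N b => and (chkL w s ws s' ws' H Fs d N b)
                  (and (and (Nat.blt (Nat.mul (cs F.gp) (Nat.mul (nat_lit 2) H)) (Nat.pow (nat_lit 2) w))
                    (and (Nat.blt (Nat.mul (cs F.gm) (Nat.mul (nat_lit 2) H)) (Nat.pow (nat_lit 2) w))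
                      (Nat.ble (Nat.mul (Nat.add (cs F.gp) (cs F.gm)) b) H)))
                    (ih2 (Nat.sub d F.e) (conK w s H (RR w s ws (Nat.sub d F.e)) [⟨N, F.gp, F.gm⟩])
                      (Nat.mul (Nat.add (cs F.gp) (cs F.gm)) b))))
                n (d - F.e) (conK w s H (RR w s ws (d - F.e)) [⟨N, F.gp, F.gm⟩]) ((cs F.gp + cs F.gm) * b))) = true := hc
        rw [Bool.and_eq_true, Bool.and_eq_true, Bool.and_eq_true, Bool.and_eq_true] at hc'
        obtain ⟨c1, ⟨c2, c3, c4⟩, c5⟩ := hc'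
        have c2 : cs F.gp * (2 * H) < 2 ^ w := by simpa [Nat.blt_eq] using c2
        have c3 : cs F.gm * (2 * H) < 2 ^ w := by simpa [Nat.blt_eq] using c3
        have c4 : (cs F.gp + cs F.gm) * b ≤ H := Nat.le_of_ble_eq_true c4
        cases k with
        | zero =>
          rw [pow_zero, ct_one]
          exact ih d N b μ hd hd' hb hN c1
        | succ k =>
          rw [Nat.succ_mul] at hnd
          have hde : d - F.e + F.e = d := by omega
          have r1 := con_rep (e := F.e) (hV d hd) (hV (d - F.e) (by omega)) hw hb hH hde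
            [((⟨N, F.gp, F.gm⟩ : CD), μ)] (by simpa using hN) (by simpa using hF1) (by simpa using hF2)
            (by simpa [csP] using c2) (by simpa [csM] using c3) (b' := (cs F.gp + cs F.gm) * b)
            (by simp [csP, csM]) c4
          rw [conF_single] at r1
          have r2 := ihn (d - F.e) _ _ _ (by omega) (by omega) (by omega) c4 r1 c5 k (by omega)
          rw [ct_pow_succ]
          have e : d - F.e - F.e * k = d - F.e * (k + 1) := by
            rw [Nat.mul_succ]
            omega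
          rw [e] at r2
          exact r2
    intro d N b μ hd hd' hb hN hc ks hks d' hd2 m' hm'
    cases ks with
    | nil => simp at hks
    | cons k ks =>
      have hks : ks.length = Fs.length := by simpa using hks
      have e1 : prodP s (F :: Fs) (k :: ks) = prodP s Fs ks * F.poly s ^ k := by
        unfold prodP
        rw [List.zipWith_cons_cons, List.prod_cons, mul_comm]
      have e2 : wP (F :: Fs) (k :: ks) = F.e * k + wP Fs ks := by
        unfold wP
        rw [List.zipWith_cons_cons, List.sum_cons]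
      rw [e2] at hd2
      have hk : k ≤ d / F.e := by
        rw [Nat.le_div_iff_mul_le hF0, mul_comm]
        omega
      have := loop (d / F.e) d N b μ (Nat.div_mul_le_self d F.e) hd hd' hb hN hc k hk ks hks d' (by omega) m' hm'
      rw [e1, ct_mul]
      exact this

/-- the packed functional with the coefficients `ep - em` -/
noncomputable def N0 (s ws : List ℕ) (w cb H m : ℕ) (ep em : Ex) : ℕ :=
  Nat.sub (Nat.add (ep.kv s w cb) (Nat.mul H (RR w s ws m))) (em.kv s w cb)

/-- the functional with the coefficients `ep - em` -/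
noncomputable def mu0 (s ws : List ℕ) (cb : ℕ) (ep em : Ex) : (Fin s.length →₀ ℕ) → ℤ :=
  fun α => ((coeff α (ep.mv s ws cb) : ℕ) : ℤ) - ((coeff α (em.mv s ws cb) : ℕ) : ℤ)

theorem kv_sum (s ws Vs : List ℕ) (w cb D : ℕ) (hV : AllOK s ws Vs) (hD : D < Vs.length) (e : Ex)
    (h : e.hom s ws Vs cb D = true) : e.kv s w cb = ∑ α ∈ Sd s ws D, coeff α (e.mv s ws cb) * 2 ^ (w * P s α) := by
  classical
  have hhom := Ex.hom_mv s ws Vs cb hV e D h
  rw [← Ex.eval_kv s ws Vs w cb hV e D h, eval_eq']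
  set F := e.mv s ws cb with hF
  have : ∑ d ∈ F.support, coeff d F * ∏ i, (fun i => 2 ^ (w * s.get i)) i ^ d i =
      ∑ d ∈ F.support, coeff d F * 2 ^ (w * P s d) := by
    refine Finset.sum_congr rfl fun d _ => ?_
    congr 1
    unfold P
    rw [Finset.mul_sum, ← Finset.prod_pow_eq_pow_sum]
    refine Finset.prod_congr rfl fun i _ => ?_
    rw [← pow_mul]
    congr 1
    ring
  rw [this]
  refine Finset.sum_subset (fun d hd => ?_) fun d _ hd => ?_
  · rw [mem_Sd (hV D hD)]
    exact hhom (mem_support_iff.1 hd)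
  · rw [notMem_support_iff.1 hd, Nat.zero_mul]

theorem coeff_le_nrm (s ws : List ℕ) (cb : ℕ) (e : Ex) (α : Fin s.length →₀ ℕ) : coeff α (e.mv s ws cb) ≤ e.nrm cb := by
  classical
  refine le_trans ?_ (Ex.eval_one s ws cb e)
  set F := e.mv s ws cb with hF
  have h1 : eval (fun _ => 1) F = ∑ d ∈ F.support, coeff d F := by
    rw [eval_eq]
    refine Finset.sum_congr rfl fun d _ => ?_
    simp
  rw [h1]
  by_cases h : α ∈ F.support
  · exact Finset.single_le_sum (f := fun d => coeff d F) (fun _ _ => Nat.zero_le _) h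
  · rw [notMem_support_iff.1 h]
    exact Nat.zero_le _

theorem rep0 {s ws Vs : List ℕ} {w cb H m b : ℕ} (hV : AllOK s ws Vs) (hm : m < Vs.length) (ep em : Ex)
    (h1 : ep.hom s ws Vs cb m = true) (h2 : em.hom s ws Vs cb m = true) (h3 : ep.nrm cb ≤ b) (h4 : em.nrm cb ≤ b)
    (hb : b ≤ H) : Rep s ws w H m (N0 s ws w cb H m ep em) (mu0 s ws cb ep em) b := by
  have hbd : ∀ α ∈ Sd s ws m, |mu0 s ws cb ep em α| ≤ b := by
    intro α _
    have a1 := coeff_le_nrm s ws cb ep α
    have a2 := coeff_le_nrm s ws cb em α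
    unfold mu0
    rw [abs_le]
    constructor <;> omega
  refine ⟨?_, hbd⟩
  have k1 := kv_sum s ws Vs w cb m hV hm ep h1
  have k2 := kv_sum s ws Vs w cb m hV hm em h2
  have hR := RR_eq_sum w (hV m hm)
  have key : ep.kv s w cb + H * RR w s ws m =
      (∑ α ∈ Sd s ws m, (mu0 s ws cb ep em α + H).toNat * 2 ^ (w * P s α)) + em.kv s w cb := by
    rw [k1, k2, hR, Finset.mul_sum, ← Finset.sum_add_distrib, ← Finset.sum_add_distrib]
    refine Finset.sum_congr rfl fun α hα => ?_
    rw [← add_mul, ← add_mul]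
    congr 1
    have a1 := coeff_le_nrm s ws cb ep α
    have a2 := coeff_le_nrm s ws cb em α
    unfold mu0
    omega
  change ep.kv s w cb + H * RR w s ws m - em.kv s w cb = _
  rw [key, Nat.add_sub_cancel]

/-- outside the weight `m` the functional vanishes -/
theorem mu0_zero {s ws Vs : List ℕ} {cb m : ℕ} (hV : AllOK s ws Vs) (ep em : Ex)
    (h1 : ep.hom s ws Vs cb m = true) (h2 : em.hom s ws Vs cb m = true) (α : Fin s.length →₀ ℕ) (hα : wt s ws α ≠ m) :
    mu0 s ws cb ep em α = 0 := by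
  unfold mu0
  rw [(Ex.hom_mv s ws Vs cb hV ep m h1).coeff_eq_zero α hα, (Ex.hom_mv s ws Vs cb hV em m h2).coeff_eq_zero α hα]
  simp

/-- the value of the functional -/
theorem sum_lam {σ : Type*} (S : Finset (σ →₀ ℕ)) (μ : (σ →₀ ℕ) → ℤ) (hμ : ∀ α, α ∉ S → μ α = 0) (g : MvPolynomial σ ℤ) :
    ∑ e ∈ S, μ e * coeff e g = ct g μ 0 := by
  classical
  refine MvPolynomial.induction_on' (P := fun g => ∑ e ∈ S, μ e * coeff e g = ctl μ 0 g) g ?_ ?_
  · intro t c
    rw [ctl_monomial, zero_add]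
    simp only [coeff_monomial]
    rw [Finset.sum_eq_single t]
    · rw [if_pos rfl, mul_comm]
    · intro b _ hb
      rw [if_neg (Ne.symm hb), mul_zero]
    · intro ht
      rw [if_pos rfl, hμ t ht, zero_mul]
  · intro p q hp hq
    rw [map_add, ← hp, ← hq, ← Finset.sum_add_distrib]
    refine Finset.sum_congr rfl fun e _ => ?_
    rw [coeff_add, mul_add]

end Pool.Agent.Mond61
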