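import Pool.Agent.Mond61.Contract4

set_option autoImplicit false

/-! Values of a packed functional on polynomials in the products of powers. -/

namespace Pool.Agent.Mond61

open MvPolynomial

/-- value of a term list (digits = indices of variables, coefficient) at a point -/
def pvL {A : Type*} [CommSemiring A] (x : ℕ → A) (l : TL) : A := (l.map fun t => (t.2 : A) * (t.1.map x).prod).sum

theorem pvL_map {A B : Type*} [CommSemiring A] [CommSemiring B] (f : A →+* B) (x : ℕ → A) (l : TL) :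
    f (pvL x l) = pvL (fun i => f (x i)) l := by
  unfold pvL
  rw [map_list_sum, List.map_map]
  congr 1
  refine List.map_congr_left fun t _ => ?_
  simp only [Function.comp_apply]
  rw [map_mul, map_natCast, map_list_prod, List.map_map]
  rfl

/-- the point `(F_1, .., F_k, X_{n}, X_{n + 1}, ..)` : index `v < Fs.length` is `F_v`, index `v + Fs.length` is the variable `n + v` -/
noncomputable def xF (s : List ℕ) (Fs : List FD) (n : ℕ) (v : ℕ) : MvPolynomial (Fin s.length) ℤ :=
  if v < Fs.length then (Fs.getD v ⟨[], [], 0⟩).poly s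
  else if h : v - Fs.length + n < s.length then X ⟨v - Fs.length + n, h⟩ else 0

/-- packed value of a product of digits -/
noncomputable def evD (w : ℕ) (s ws s' ws' : List ℕ) (H : ℕ) (Fs : List FD) (n : ℕ) (vs : List ℕ) : ℕ → ℕ → ℕ → ℕ :=
  List.rec (motive := fun _ => ℕ → ℕ → ℕ → ℕ)
    (fun d N p => Nat.mod (Nat.shiftRight (Nat.land N (Nat.mul (Nat.sub (Nat.pow (nat_lit 2) w) (nat_lit 1)) (RR w s' ws' d)))
      (Nat.mul w p)) (Nat.pow (nat_lit 2) w))
    (fun v _ ih d N p => Bool.rec (motive := fun _ => ℕ)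
      (ih d N (Nat.add p (s.getD (Nat.add (Nat.sub v Fs.length) n) (nat_lit 0))))
      (ih (Nat.sub d (Fs.getD v ⟨[], [], 0⟩).e)
        (conK w s H (RR w s ws (Nat.sub d (Fs.getD v ⟨[], [], 0⟩).e)) [⟨N, (Fs.getD v ⟨[], [], 0⟩).gp, (Fs.getD v ⟨[], [], 0⟩).gm⟩]) p)
      (Nat.blt v Fs.length)) vs

theorem evD_nil (w : ℕ) (s ws s' ws' : List ℕ) (H : ℕ) (Fs : List FD) (n d N p : ℕ) :
    evD w s ws s' ws' H Fs n [] d N p = dg w (Nat.land N ((2 ^ w - 1) * RR w s' ws' d)) p := by
  unfold dg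
  rw [← Nat.shiftRight_eq_div_pow]
  rfl

theorem evD_lt (w : ℕ) (s ws s' ws' : List ℕ) (H : ℕ) (Fs : List FD) (n v : ℕ) (vs : List ℕ) (d N p : ℕ) (hv : v < Fs.length) :
    evD w s ws s' ws' H Fs n (v :: vs) d N p =
      evD w s ws s' ws' H Fs n vs (d - (Fs.getD v ⟨[], [], 0⟩).e)
        (conK w s H (RR w s ws (d - (Fs.getD v ⟨[], [], 0⟩).e)) [⟨N, (Fs.getD v ⟨[], [], 0⟩).gp, (Fs.getD v ⟨[], [], 0⟩).gm⟩]) p := by
  have h : Nat.blt v Fs.length = true := by simpa [Nat.blt_eq] using hv
  change (Bool.rec (motive := fun _ => ℕ) _ _ (Nat.blt v Fs.length) : ℕ) = _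
  rw [h]
  rfl

theorem evD_ge (w : ℕ) (s ws s' ws' : List ℕ) (H : ℕ) (Fs : List FD) (n v : ℕ) (vs : List ℕ) (d N p : ℕ) (hv : Fs.length ≤ v) :
    evD w s ws s' ws' H Fs n (v :: vs) d N p =
      evD w s ws s' ws' H Fs n vs d N (p + s.getD (v - Fs.length + n) 0) := by
  have h : Nat.blt v Fs.length = false := by
    rw [← Bool.not_eq_true, Nat.blt_eq]
    omega
  change (Bool.rec (motive := fun _ => ℕ) _ _ (Nat.blt v Fs.length) : ℕ) = _
  rw [h]
  rfl

/-- weight of a digit -/
def wD (ws : List ℕ) (Fs : List FD) (n v : ℕ) : ℕ :=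
  if v < Fs.length then (Fs.getD v ⟨[], [], 0⟩).e else ws.getD (v - Fs.length + n) 0

/-- the conditions on the `F_v` : bounds -/
def FOK (s ws : List ℕ) (w H K : ℕ) (Fs : List FD) : Prop :=
  ∀ F ∈ Fs, TW s ws F.e F.gp ∧ TW s ws F.e F.gm ∧ cs F.gp * (2 * H) < 2 ^ w ∧ cs F.gm * (2 * H) < 2 ^ w ∧ cs F.gp + cs F.gm ≤ K

/-- exponents supported on the variables with index `≥ n` -/
def Pure (s : List ℕ) (n : ℕ) (α : Fin s.length →₀ ℕ) : Prop := ∀ i : Fin s.length, (i : ℕ) < n → α i = 0

theorem evD_spec {s ws s' ws' Vs Vs' : List ℕ} {em : List ℕ → List ℕ} {w H K n : ℕ} (hV : AllOK s ws Vs)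
    (hV' : AllOK s' ws' Vs') (hs : SubOK s ws s' ws' em) (hw : 0 < w) (hH : 2 * H < 2 ^ w) (hK : 0 < K) (Fs : List FD)
    (hF : FOK s ws w H K Fs) (hem : ∀ α : Fin s.length →₀ ℕ, Pure s n α → ∃ m', m'.length = ws'.length ∧ α = toFs s (em m'))
    (vs : List ℕ) (hvs : ∀ v ∈ vs, v < Fs.length ∨ v - Fs.length + n < s.length) :
    ∀ (d N b : ℕ) (μ : (Fin s.length →₀ ℕ) → ℤ) (γ : Fin s.length →₀ ℕ), d < Vs.length → d < Vs'.length →
      b * K ^ vs.length ≤ H → Rep s ws w H d N μ b → Pure s n γ → wt s ws γ + (vs.map (wD ws Fs n)).sum = d →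
      ((evD w s ws s' ws' H Fs n vs d N (P s γ) : ℕ) : ℤ) = ct ((vs.map (xF s Fs n)).prod) μ γ + H := by
  induction vs with
  | nil =>
    intro d N b μ γ hd hd' hb hN hγ hwt
    have hb : b ≤ H := by simpa using hb
    have hwt : wt s ws γ = d := by simpa using hwt
    rw [evD_nil, List.map_nil, List.prod_nil, ct_one]
    obtain ⟨m', hm', rfl⟩ := hem γ hγ
    obtain ⟨e1, e2, e3⟩ := hs m' hm'
    have h' := hV' d hd'
    have h := hV d hd
    have hm : m' ∈ monos ws' d := by
      rw [mem_monos h'.2.1]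
      refine ⟨hm', ?_⟩
      rw [← e2, ← wt_eq s ws h.1 _ e1]
      exact hwt
    have hinj : Set.InjOn (pos s') ((monos ws' d).toFinset : Set (List ℕ)) := fun a ha b hb hab => by
      rw [Finset.mem_coe, List.mem_toFinset] at ha hb
      exact h'.inj ha hb hab
    have h2 := land_mask (monos ws' d).toFinset (pos s') w hw hinj N
    have h3 : Nat.land N ((2 ^ w - 1) * RR w s' ws' d) =
        ∑ i ∈ (monos ws' d).toFinset, dg w N (pos s' i) * 2 ^ (w * pos s' i) := by
      rw [RR_eq_sum' w h']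
      exact h2
    rw [h3, P_toFs s _ e1, e3, dg_sum (monos ws' d).toFinset (fun i => dg w N (pos s' i)) (pos s') w hinj
      (fun _ _ => dg_lt w N _) (List.mem_toFinset.2 hm), ← e3, ← P_toFs s _ e1]
    exact hN.dg_eq h hb hH ((mem_Sd h _).2 hwt)
  | cons v vs ih =>
    have ih := ih fun v' h' => hvs v' (by simp [h'])
    intro d N b μ γ hd hd' hb hN hγ hwt
    rw [List.map_cons, List.sum_cons] at hwt
    rw [List.map_cons, List.prod_cons]
    by_cases hv : v < Fs.length
    · rw [evD_lt _ _ _ _ _ _ _ _ _ _ _ _ _ hv]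
      set F := Fs.getD v ⟨[], [], 0⟩ with hFdef
      have hFm : F ∈ Fs := by
        rw [hFdef, List.getD_eq_getElem _ _ hv]
        exact List.getElem_mem hv
      obtain ⟨f1, f2, f3, f4, f5⟩ := hF F hFm
      have e1 : wD ws Fs n v = F.e := by
        unfold wD
        rw [if_pos hv]
      have e2 : xF s Fs n v = F.poly s := by
        unfold xF
        rw [if_pos hv]
      rw [e1] at hwt
      rw [e2, mul_comm, ct_mul]
      have hb0 : b ≤ H := by
        refine le_trans ?_ hb
        exact Nat.le_mul_of_pos_right _ (pow_pos hK _)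
      have hb1 : (b * K) * K ^ vs.length ≤ H := by
        rw [List.length_cons, pow_succ] at hb
        calc b * K * K ^ vs.length = b * (K ^ vs.length * K) := by ring
          _ ≤ H := hb
      have hb2 : b * K ≤ H := le_trans (Nat.le_mul_of_pos_right _ (pow_pos hK _)) hb1
      have hde : d - F.e + F.e = d := by omega
      have r1 := con_rep (e := F.e) (hV d hd) (hV (d - F.e) (by omega)) hw hb0 hH hde
        [((⟨N, F.gp, F.gm⟩ : CD), μ)] (by simpa using hN) (by simpa using f1) (by simpa using f2)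
        (by simpa [csP] using f3) (by simpa [csM] using f4) (b' := b * K)
        (by
          have : (csP [(⟨N, F.gp, F.gm⟩ : CD)] + csM [(⟨N, F.gp, F.gm⟩ : CD)]) = cs F.gp + cs F.gm := by simp [csP, csM]
          change (csP [(⟨N, F.gp, F.gm⟩ : CD)] + csM [(⟨N, F.gp, F.gm⟩ : CD)]) * b ≤ b * K
          rw [this, mul_comm b K]
          exact Nat.mul_le_mul_right _ f5) hb2
      rw [conF_single] at r1
      exact ih (d - F.e) _ _ _ γ (by omega) (by omega) hb1 r1 hγ (by omega)
    · have hv' : Fs.length ≤ v := not_lt.1 hv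
      rw [evD_ge _ _ _ _ _ _ _ _ _ _ _ _ _ hv']
      have hv2 : v - Fs.length + n < s.length := (hvs v (by simp)).resolve_left hv
      have e1 : wD ws Fs n v = ws.getD (v - Fs.length + n) 0 := by
        unfold wD
        rw [if_neg hv]
      have e2 : xF s Fs n v = monomial (Finsupp.single ⟨v - Fs.length + n, hv2⟩ 1) 1 := by
        unfold xF
        rw [if_neg hv, dif_pos hv2]
        rfl
      have e3 : P s (γ + Finsupp.single ⟨v - Fs.length + n, hv2⟩ 1) = P s γ + s.getD (v - Fs.length + n) 0 := by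
        rw [P_add]
        congr 1
        unfold P
        rw [Finset.sum_eq_single ⟨v - Fs.length + n, hv2⟩]
        · rw [Finsupp.single_eq_same, mul_one, List.getD_eq_getElem _ _ hv2]
          rfl
        · intro i _ hi
          rw [Finsupp.single_eq_of_ne hi, mul_zero]
        · intro h
          exact absurd (Finset.mem_univ _) h
      have e4 : wt s ws (γ + Finsupp.single ⟨v - Fs.length + n, hv2⟩ 1) = wt s ws γ + ws.getD (v - Fs.length + n) 0 := by
        rw [wt_add]
        congr 1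
        unfold wt
        rw [Finsupp.weight_single, one_smul]
        rfl
      rw [e1] at hwt
      have hb1 : b * K ^ vs.length ≤ H := by
        refine le_trans (Nat.mul_le_mul_left _ ?_) hb
        rw [List.length_cons]
        exact Nat.pow_le_pow_right hK (Nat.le_succ _)
      have hγ' : Pure s n (γ + Finsupp.single ⟨v - Fs.length + n, hv2⟩ 1) := by
        intro i hi
        rw [Finsupp.add_apply, hγ i hi, zero_add, Finsupp.single_eq_of_ne]
        intro h
        have := congrArg Fin.val h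
        simp only at this
        omega
      have := ih d N b μ _ hd hd' hb1 hN hγ' (by rw [e4]; omega)
      rw [e3] at this
      rw [this, e2]
      congr 1
      exact (ctl_monomial_mul μ γ _ _).symm

/-- packed value of a term list -/
noncomputable def valL (w : ℕ) (s ws s' ws' : List ℕ) (H : ℕ) (Fs : List FD) (n d N : ℕ) (l : TL) : ℕ :=
  List.rec (motive := fun _ => ℕ) (nat_lit 0)
    (fun t _ ih => Nat.add (Nat.mul t.2 (evD w s ws s' ws' H Fs n t.1 d N (nat_lit 0))) ih) l

/-- the conditions on the terms -/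
def TOK (s ws : List ℕ) (Fs : List FD) (n d q : ℕ) (l : TL) : Prop :=
  ∀ t ∈ l, t.1.length ≤ q ∧ (∀ v ∈ t.1, v < Fs.length ∨ v - Fs.length + n < s.length) ∧ (t.1.map (wD ws Fs n)).sum = d

theorem valL_spec {s ws s' ws' Vs Vs' : List ℕ} {em : List ℕ → List ℕ} {w H K n q : ℕ} (hV : AllOK s ws Vs)
    (hV' : AllOK s' ws' Vs') (hs : SubOK s ws s' ws' em) (hw : 0 < w) (hH : 2 * H < 2 ^ w) (hK : 0 < K) (Fs : List FD)
    (hF : FOK s ws w H K Fs) (hem : ∀ α : Fin s.length →₀ ℕ, Pure s n α → ∃ m', m'.length = ws'.length ∧ α = toFs s (em m'))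
    (d N b : ℕ) (μ : (Fin s.length →₀ ℕ) → ℤ) (hd : d < Vs.length) (hd' : d < Vs'.length) (hb : b * K ^ q ≤ H)
    (hN : Rep s ws w H d N μ b) (l : TL) (hl : TOK s ws Fs n d q l) :
    ((valL w s ws s' ws' H Fs n d N l : ℕ) : ℤ) = ct (pvL (xF s Fs n) l) μ 0 + H * cs l := by
  induction l with
  | nil =>
    have : ct (pvL (xF s Fs n) []) μ 0 = 0 := map_zero (ctl μ 0)
    rw [this]
    rfl
  | cons t l ih =>
    obtain ⟨t1, t2, t3⟩ := hl t (by simp)
    have ih := ih fun t' h' => hl t' (by simp [h'])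
    have hb1 : b * K ^ t.1.length ≤ H := le_trans (Nat.mul_le_mul_left _ (Nat.pow_le_pow_right hK t1)) hb
    have h0 : wt s ws (0 : Fin s.length →₀ ℕ) = 0 := by
      unfold wt
      exact map_zero _
    have hP0 : P s (0 : Fin s.length →₀ ℕ) = 0 := by
      unfold P
      simp
    have := evD_spec hV hV' hs hw hH hK Fs hF hem t.1 t2 d N b μ 0 hd hd' hb1 hN (fun _ _ => rfl) (by rw [h0, t3]; omega)
    rw [hP0] at this
    have e1 : valL w s ws s' ws' H Fs n d N (t :: l) =
      t.2 * evD w s ws s' ws' H Fs n t.1 d N 0 + valL w s ws s' ws' H Fs n d N l := rfl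
    have e2 : pvL (xF s Fs n) (t :: l) = (t.2 : ℤ) • (t.1.map (xF s Fs n)).prod + pvL (xF s Fs n) l := by
      unfold pvL
      rw [List.map_cons, List.sum_cons]
      congr 1
      rw [smul_eq_C_mul]
      simp
    rw [e1, e2, cs_cons, ct_add_left, Pi.add_apply]
    have e3 : ct ((t.2 : ℤ) • (t.1.map (xF s Fs n)).prod) μ 0 = (t.2 : ℤ) * ct (t.1.map (xF s Fs n)).prod μ 0 := by
      change ctl μ 0 _ = _ * ctl μ 0 _
      rw [map_smul, smul_eq_mul]
    rw [e3]
    push_cast
    rw [this, ih]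
    ring

end Pool.Agent.Mond61
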