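import Pool.Agent.Mond61.Contract5

set_option autoImplicit false

/-! Derivatives of term lists; products of powers as monomials in the target variables. -/

namespace Pool.Agent.Mond61

open MvPolynomial

/-- derivative of a term list -/
def dT (i : ℕ) (l : TL) : TL :=
  (l.filter fun t => !(Nat.beq (t.1.getD i 0) 0)).map fun t => (t.1.set i (t.1.getD i 0 - 1), t.2 * t.1.getD i 0)

theorem toFs_apply (s t : List ℕ) (i : Fin s.length) : toFs s t i = t.getD i 0 := rfl

theorem pderiv_plist (s : List ℕ) (i : Fin s.length) (l : TL) (hl : ∀ t ∈ l, t.1.length = s.length) :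
    pderiv i (plist s l) = plist s (dT i l) := by
  induction l with
  | nil => exact map_zero _
  | cons t l ih =>
    have ih := ih fun t' h' => hl t' (by simp [h'])
    have ht := hl t (by simp)
    have e1 : plist s (t :: l) = monomial (toFs s t.1) (t.2 : ℤ) + plist s l := by
      unfold plist
      rw [List.map_cons, List.sum_cons]
    rw [e1, map_add, ih, pderiv_monomial]
    by_cases h0 : t.1.getD (i : ℕ) 0 = 0
    · have e2 : dT i (t :: l) = dT i l := by
        unfold dT
        rw [List.filter_cons_of_neg]
        rw [h0]
        decide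
      rw [e2, toFs_apply, h0]
      simp
    · have e2 : dT i (t :: l) = (t.1.set i (t.1.getD i 0 - 1), t.2 * t.1.getD i 0) :: dT i l := by
        unfold dT
        rw [List.filter_cons_of_pos]
        · rfl
        · have : Nat.beq (t.1.getD (i : ℕ) 0) 0 = false := by
            rw [← Bool.not_eq_true]
            intro h
            exact h0 (Nat.eq_of_beq_eq_true h)
          rw [this]
          rfl
      have e3 : plist s ((t.1.set i (t.1.getD i 0 - 1), t.2 * t.1.getD i 0) :: dT i l) =
          monomial (toFs s (t.1.set i (t.1.getD i 0 - 1))) ((t.2 * t.1.getD i 0 : ℕ) : ℤ) + plist s (dT i l) := by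
        unfold plist
        rw [List.map_cons, List.sum_cons]
      rw [e2, e3]
      congr 1
      have e4 : toFs s t.1 - Finsupp.single i 1 = toFs s (t.1.set i (t.1.getD i 0 - 1)) := by
        ext k
        rw [Finsupp.tsub_apply, toFs_apply, toFs_apply]
        by_cases hk : i = k
        · subst hk
          rw [Finsupp.single_eq_same]
          have hlt : (i : ℕ) < t.1.length := by rw [ht]; exact i.2
          rw [List.getD_eq_getElem (t.1.set (i : ℕ) (t.1.getD (i : ℕ) 0 - 1)) 0 (by rw [List.length_set]; exact hlt), List.getElem_set_self]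
        · rw [Finsupp.single_eq_of_ne (Ne.symm hk), Nat.sub_zero]
          have hlt : (k : ℕ) < t.1.length := by rw [ht]; exact k.2
          rw [List.getD_eq_getElem _ _ hlt, List.getD_eq_getElem _ _ (by rw [List.length_set]; exact hlt),
            List.getElem_set_ne (fun h => hk (Fin.ext h))]
      rw [e4, toFs_apply, Nat.cast_mul]

/-- Bool check of `TW` -/
noncomputable def twb (n : ℕ) (ws : List ℕ) (e : ℕ) (l : TL) : Bool :=
  l.all fun t => and (Nat.beq t.1.length n) (Nat.beq (pos ws t.1) e)

theorem twb_spec {s ws : List ℕ} {e : ℕ} {l : TL} (h : twb s.length ws e l = true) : TW s ws e l := by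
  intro t ht
  unfold twb at h
  rw [List.all_eq_true] at h
  have := h t ht
  rw [Bool.and_eq_true] at this
  exact ⟨Nat.eq_of_beq_eq_true this.1, Nat.eq_of_beq_eq_true this.2⟩

end Pool.Agent.Mond61
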