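import Pool.Agent.Mond61.Contract2

set_option autoImplicit false

/-! Fast check of contexts (no deep recursion): `ctxF s ws D V = true → CtxOK s ws D V`. -/

namespace Pool.Agent.Mond61

/-- partial sums in `RR` -/
noncomputable def RRp (w : ℕ) (a b : ℕ) (s ws : List ℕ) (D n : ℕ) : ℕ :=
  Nat.rec (motive := fun _ => ℕ) (RR w s ws D)
    (fun e acc => Nat.add (Nat.shiftLeft (RR w s ws (Nat.sub D (Nat.mul b (Nat.succ e)))) (Nat.mul w (Nat.mul a (Nat.succ e)))) acc) n

/-- the positions of all monomials of weight `D` are different -/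
noncomputable def dj : List ℕ → List ℕ → ℕ → Bool :=
  List.rec (motive := fun _ => List ℕ → ℕ → Bool)
    (fun _ _ => true)
    (fun a s ih ws D => List.rec (motive := fun _ => Bool) true
      (fun b ws' _ => Nat.rec (motive := fun _ => Bool) (ih ws' D)
        (fun e acc => and acc (and (ih ws' (Nat.sub D (Nat.mul b (Nat.succ e))))
          (Nat.beq (Nat.land (Nat.shiftLeft (RR (nat_lit 1) s ws' (Nat.sub D (Nat.mul b (Nat.succ e)))) (Nat.mul (nat_lit 1) (Nat.mul a (Nat.succ e))))
            (RRp (nat_lit 1) a b s ws' D e)) (nat_lit 0))))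
        (Nat.div D b)) ws)

/-- the fast check of a context -/
noncomputable def ctxF (s ws : List ℕ) (D V : ℕ) : Bool := and (dj s ws D) (Nat.beq V (RR (nat_lit 1) s ws D))

theorem testBit_eq_dg (N j : ℕ) : N.testBit j = decide (dg 1 N j = 1) := by
  rw [Nat.testBit_eq_decide_div_mod_eq]
  unfold dg
  rw [one_mul, pow_one]

theorem bits_sum (l : List ℕ) (h : l.Nodup) (p : ℕ) : ((l.map fun q => 2 ^ (1 * q)).sum).testBit p = true ↔ p ∈ l := by
  have e : (l.map fun q => 2 ^ (1 * q)).sum = ∑ q ∈ l.toFinset, (fun _ => 1) q * 2 ^ (1 * (fun q => q) q) := by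
    rw [← List.sum_toFinset _ h]
    simp
  rw [e, testBit_eq_dg, decide_eq_true_eq]
  constructor
  · intro hp
    by_contra hcon
    rw [dg_sum_of_notMem l.toFinset (fun _ => 1) (fun q => q) 1 (fun _ _ _ _ h => h) (fun _ _ => by norm_num) p
      (fun i hi hip => hcon (by rw [← hip]; exact List.mem_toFinset.1 hi))] at hp
    exact absurd hp (by norm_num)
  · intro hp
    exact dg_sum l.toFinset (fun _ => 1) (fun q => q) 1 (fun _ _ _ _ h => h) (fun _ _ => by norm_num)
      (List.mem_toFinset.2 hp)

/-- positions, up to the exponent `n` of the first variable -/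
def Lp (a b : ℕ) (ps : ℕ → List ℕ) (D n : ℕ) : List ℕ :=
  (List.range (n + 1)).flatMap fun e => (ps (D - b * e)).map fun p => a * e + p

theorem Lp_succ (a b : ℕ) (ps : ℕ → List ℕ) (D n : ℕ) :
    Lp a b ps D (n + 1) = Lp a b ps D n ++ (ps (D - b * (n + 1))).map fun p => a * (n + 1) + p := by
  unfold Lp
  rw [List.range_succ, List.flatMap_append]
  simp

theorem RR_eq1 (s ws : List ℕ) (h : s.length = ws.length) (D : ℕ) :
    RR 1 s ws D = (((monos ws D).map (pos s)).map fun q => 2 ^ (1 * q)).sum := by
  rw [RR_eq 1 s ws D h, List.map_map]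
  rfl

theorem RRp_eq (a b : ℕ) (s ws : List ℕ) (h : s.length = ws.length) (D n : ℕ) :
    RRp 1 a b s ws D n = ((Lp a b (fun D => (monos ws D).map (pos s)) D n).map fun q => 2 ^ (1 * q)).sum := by
  induction n with
  | zero =>
    change RR 1 s ws D = _
    rw [RR_eq1 s ws h]
    unfold Lp
    simp
    rfl
  | succ n ih =>
    change Nat.shiftLeft (RR 1 s ws (D - b * (n + 1))) (1 * (a * (n + 1))) + RRp 1 a b s ws D n = _
    rw [Lp_succ, List.map_append, List.sum_append, ← ih, add_comm]
    congr 1
    refine (Nat.shiftLeft_eq _ _).trans ?_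
    rw [RR_eq1 s ws h, List.map_map, List.map_map, List.map_map, ← List.sum_map_mul_right]
    congr 1
    refine List.map_congr_left fun m _ => ?_
    change 2 ^ (1 * pos s m) * 2 ^ (1 * (a * (n + 1))) = 2 ^ (1 * (a * (n + 1) + pos s m))
    rw [← pow_add]
    congr 1
    ring

theorem dj_spec : ∀ (s ws : List ℕ) (D : ℕ), s.length = ws.length → dj s ws D = true → ((monos ws D).map (pos s)).Nodup
  | [], [], D, _, _ => by
    unfold monos
    split
    · simp
    · simp
  | [], b :: ws, D, h, _ => by simp at h
  | a :: s, [], D, h, _ => by simp at h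
  | a :: s, b :: ws, D, h, hd => by
    have h' : s.length = ws.length := by simpa using h
    have ih := fun D => dj_spec s ws D h'
    have e1 : (monos (b :: ws) D).map (pos (a :: s)) = Lp a b (fun D => (monos ws D).map (pos s)) D (D / b) := by
      unfold Lp
      rw [monos, List.map_flatMap]
      congr 1
      funext e
      rw [List.map_map, List.map_map]
      rfl
    rw [e1]
    have hd : (Nat.rec (motive := fun _ => Bool) (dj s ws D)
        (fun e acc => and acc (and (dj s ws (Nat.sub D (Nat.mul b (Nat.succ e))))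
          (Nat.beq (Nat.land (Nat.shiftLeft (RR (nat_lit 1) s ws (Nat.sub D (Nat.mul b (Nat.succ e)))) (Nat.mul (nat_lit 1) (Nat.mul a (Nat.succ e))))
            (RRp (nat_lit 1) a b s ws D e)) (nat_lit 0)))) (D / b) : Bool) = true := hd
    generalize D / b = n at hd
    induction n with
    | zero =>
      have := ih D hd
      have e0 : Lp a b (fun D => (monos ws D).map (pos s)) D 0 = (monos ws D).map (pos s) := by
        unfold Lp
        simp
      rw [e0]
      exact this
    | succ n ihn =>
      have hd' : and (Nat.rec (motive := fun _ => Bool) (dj s ws D)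
        (fun e acc => and acc (and (dj s ws (Nat.sub D (Nat.mul b (Nat.succ e))))
          (Nat.beq (Nat.land (Nat.shiftLeft (RR (nat_lit 1) s ws (Nat.sub D (Nat.mul b (Nat.succ e)))) (Nat.mul (nat_lit 1) (Nat.mul a (Nat.succ e))))
            (RRp (nat_lit 1) a b s ws D e)) (nat_lit 0)))) n : Bool)
        (and (dj s ws (D - b * (n + 1)))
          (Nat.beq (Nat.land (Nat.shiftLeft (RR 1 s ws (D - b * (n + 1))) (1 * (a * (n + 1)))) (RRp 1 a b s ws D n)) 0)) = true := hd
      rw [Bool.and_eq_true, Bool.and_eq_true] at hd'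
      obtain ⟨c1, c2, c3⟩ := hd'
      have c3 : Nat.land (Nat.shiftLeft (RR 1 s ws (D - b * (n + 1))) (1 * (a * (n + 1)))) (RRp 1 a b s ws D n) = 0 :=
        Nat.eq_of_beq_eq_true c3
      have n1 := ihn c1
      have n2 := ih _ c2
      have n3 : ((((monos ws (D - b * (n + 1))).map (pos s)).map fun p => a * (n + 1) + p)).Nodup :=
        n2.map fun x y hxy => by simpa using hxy
      rw [Lp_succ, List.nodup_append]
      refine ⟨n1, n3, ?_⟩
      intro p hp q hq hpq
      subst hpq
      have b1 : (RRp 1 a b s ws D n).testBit p = true := by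
        rw [RRp_eq a b s ws h', bits_sum _ n1]
        exact hp
      have b2 : (Nat.shiftLeft (RR 1 s ws (D - b * (n + 1))) (1 * (a * (n + 1)))).testBit p = true := by
        have e2 : Nat.shiftLeft (RR 1 s ws (D - b * (n + 1))) (1 * (a * (n + 1))) =
            (((((monos ws (D - b * (n + 1))).map (pos s)).map fun p => a * (n + 1) + p)).map fun q => 2 ^ (1 * q)).sum := by
          refine (Nat.shiftLeft_eq _ _).trans ?_
          rw [RR_eq1 s ws h', List.map_map, List.map_map, List.map_map, ← List.sum_map_mul_right]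
          congr 1
          refine List.map_congr_left fun m _ => ?_
          change 2 ^ (1 * pos s m) * 2 ^ (1 * (a * (n + 1))) = 2 ^ (1 * (a * (n + 1) + pos s m))
          rw [← pow_add]
          congr 1
          ring
        rw [e2, bits_sum _ n3]
        exact hq
      have b3 : (Nat.land (Nat.shiftLeft (RR 1 s ws (D - b * (n + 1))) (1 * (a * (n + 1)))) (RRp 1 a b s ws D n)).testBit p = true := by
        have e3 := Nat.testBit_and (Nat.shiftLeft (RR 1 s ws (D - b * (n + 1))) (1 * (a * (n + 1)))) (RRp 1 a b s ws D n) p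
        rw [b1, b2] at e3
        exact e3
      rw [c3] at b3
      simp at b3

theorem bitChk_of (V : ℕ) (l : List ℕ) : ∀ acc : ℕ, l.Nodup → (∀ a ∈ l, acc.testBit a = false) →
    (∀ p, V.testBit p = true ↔ (acc.testBit p = true ∨ p ∈ l)) → bitChk V l acc = true := by
  induction l with
  | nil =>
    intro acc _ _ h
    rw [bitChk_nil]
    have : acc = V := by
      apply Nat.eq_of_testBit_eq
      intro i
      have := h i
      simp only [List.not_mem_nil, or_false] at this
      cases h1 : acc.testBit i <;> cases h2 : V.testBit i <;> simp_all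
    rw [this]
    exact Nat.beq_refl V
  | cons a l ih =>
    intro acc h1 h2 h3
    rw [List.nodup_cons] at h1
    rw [bitChk_cons, h2 a (by simp), cond_false]
    have hbit : ∀ p, (acc ||| (1 <<< a)).testBit p = (acc.testBit p || decide (a = p)) := by
      intro p
      rw [Nat.testBit_or, Nat.one_shiftLeft, Nat.testBit_two_pow]
    refine ih _ h1.2 ?_ ?_
    · intro b hb
      rw [hbit, h2 b (by simp [hb])]
      have : a ≠ b := by
        rintro rfl
        exact h1.1 hb
      simp [this]
    · intro p
      rw [h3 p, hbit]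
      simp only [Bool.or_eq_true, decide_eq_true_eq, List.mem_cons]
      constructor
      · rintro (h | rfl | h)
        · exact Or.inl (Or.inl h)
        · exact Or.inl (Or.inr rfl)
        · exact Or.inr h
      · rintro ((h | h) | h)
        · exact Or.inl h
        · exact Or.inr (Or.inl h.symm)
        · exact Or.inr (Or.inr h)

theorem ctxOK_of {s ws : List ℕ} {D V : ℕ} (h1 : s.length = ws.length) (h2 : ∀ w ∈ ws, 0 < w) (h : ctxF s ws D V = true) :
    CtxOK s ws D V := by
  unfold ctxF at h
  rw [Bool.and_eq_true] at h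
  have h3 := dj_spec s ws D h1 h.1
  have h4 : V = RR 1 s ws D := Nat.eq_of_beq_eq_true h.2
  refine ⟨h1, h2, ?_⟩
  refine bitChk_of V _ 0 h3 (fun a _ => Nat.zero_testBit a) fun p => ?_
  rw [h4, RR_eq1 s ws h1, bits_sum _ h3]
  simp

end Pool.Agent.Mond61
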