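import Mathlib

/-! Kernel-fast verification of polynomial identities (Kronecker substitution with big natural numbers).

Polynomials have natural coefficients and are homogeneous in `n` variables.  Variable `i` is replaced by
`2 ^ (w * s_i)`; if all monomials of degree `D` have different positions `∑ s_i m_i` and the sum of the
coefficients is less than `2 ^ w`, the value determines the polynomial. -/

set_option autoImplicit false

namespace Pool.Agent.Mond61

/-- position of an exponent list: `∑ s_i m_i` -/
noncomputable def pos (s : List ℕ) : List ℕ → ℕ :=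
  List.rec (motive := fun _ => List ℕ → ℕ) (fun _ => nat_lit 0)
    (fun a _ ih m => List.rec (motive := fun _ => ℕ) (nat_lit 0) (fun e m' _ => Nat.add (Nat.mul a e) (ih m')) m) s

theorem pos_nil (m : List ℕ) : pos [] m = 0 := rfl
theorem pos_cons_nil (a : ℕ) (s : List ℕ) : pos (a :: s) [] = 0 := rfl
theorem pos_cons_cons (a : ℕ) (s : List ℕ) (e : ℕ) (m : List ℕ) : pos (a :: s) (e :: m) = a * e + pos s m := rfl

/-- exponent lists for variables with weights `ws`, of total weight `D` -/
def monos : List ℕ → ℕ → List (List ℕ)
  | [], D => if D = 0 then [[]] else []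
  | w :: ws, D => (List.range (D / w + 1)).flatMap fun e => (monos ws (D - w * e)).map fun m => e :: m

theorem mem_monos {ws : List ℕ} (hw : ∀ w ∈ ws, 0 < w) {D : ℕ} {m : List ℕ} :
    m ∈ monos ws D ↔ m.length = ws.length ∧ pos ws m = D := by
  induction ws generalizing D m with
  | nil =>
    unfold monos
    split
    · rename_i h
      subst h
      cases m <;> simp [pos_nil]
    · rename_i h
      simp only [List.not_mem_nil, false_iff]
      rintro ⟨_, h2⟩
      exact h h2.symm
  | cons w ws ih =>
    have hw0 : 0 < w := hw w (by simp)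
    have ih := @ih fun w h => hw w (by simp [h])
    unfold monos
    rw [List.mem_flatMap]
    constructor
    · rintro ⟨e, he, hm⟩
      rw [List.mem_map] at hm
      obtain ⟨m', hm', rfl⟩ := hm
      rw [ih] at hm'
      rw [List.mem_range, Nat.lt_succ_iff, Nat.le_div_iff_mul_le hw0, mul_comm] at he
      refine ⟨by rw [List.length_cons, List.length_cons, hm'.1], ?_⟩
      rw [pos_cons_cons, hm'.2]
      omega
    · rintro ⟨h1, h2⟩
      cases m with
      | nil => simp at h1
      | cons a m' =>
        rw [List.length_cons, List.length_cons] at h1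
        rw [pos_cons_cons] at h2
        refine ⟨a, ?_, ?_⟩
        · rw [List.mem_range, Nat.lt_succ_iff, Nat.le_div_iff_mul_le hw0, mul_comm]
          omega
        · rw [List.mem_map]
          refine ⟨m', ?_, rfl⟩
          rw [ih]
          exact ⟨by omega, by omega⟩

/-- the list has no repetition and its bit set is `V` -/
noncomputable def bitChk (V : ℕ) (l : List ℕ) : ℕ → Bool :=
  List.rec (motive := fun _ => ℕ → Bool) (fun acc => Nat.beq acc V)
    (fun a _ ih acc => Bool.rec (motive := fun _ => Bool) (ih (Nat.lor acc (Nat.shiftLeft (nat_lit 1) a))) false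
      (Nat.beq (Nat.land (Nat.shiftRight acc a) (nat_lit 1)) (nat_lit 1))) l

theorem bit_eq (x a : ℕ) : (Nat.beq (Nat.land (Nat.shiftRight x a) 1) 1) = x.testBit a := by
  have h : Nat.land (Nat.shiftRight x a) 1 = (x >>> a) % 2 := Nat.and_one_is_mod _
  rw [h]
  unfold Nat.testBit
  have h2 : 1 &&& x >>> a = (x >>> a) % 2 := by rw [Nat.and_comm]; exact Nat.and_one_is_mod _
  rw [h2]
  rcases Nat.mod_two_eq_zero_or_one (x >>> a) with h3 | h3 <;> rw [h3] <;> rfl

theorem bitChk_nil (V acc : ℕ) : bitChk V [] acc = Nat.beq acc V := rfl

theorem bitChk_cons (V a : ℕ) (l : List ℕ) (acc : ℕ) :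
    bitChk V (a :: l) acc = bif acc.testBit a then false else bitChk V l (acc ||| (1 <<< a)) := by
  rw [← bit_eq]
  unfold bitChk
  dsimp only
  cases Nat.beq (Nat.land (Nat.shiftRight acc a) 1) 1 <;> rfl

theorem bitChk_spec (V : ℕ) (l : List ℕ) : ∀ acc : ℕ, bitChk V l acc = true →
    l.Nodup ∧ (∀ a ∈ l, acc.testBit a = false) ∧ ∀ p, V.testBit p = true ↔ (acc.testBit p = true ∨ p ∈ l) := by
  induction l with
  | nil =>
    intro acc h
    rw [bitChk_nil] at h
    have : acc = V := Nat.eq_of_beq_eq_true h
    subst this
    simp
  | cons a l ih =>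
    intro acc h
    rw [bitChk_cons] at h
    cases hb : acc.testBit a with
    | true => rw [hb] at h; simp at h
    | false =>
      rw [hb] at h
      simp only [cond_false] at h
      obtain ⟨h1, h2, h3⟩ := ih _ h
      have hbit : ∀ p, (acc ||| (1 <<< a)).testBit p = (acc.testBit p || decide (a = p)) := by
        intro p
        rw [Nat.testBit_or, Nat.one_shiftLeft, Nat.testBit_two_pow]
      refine ⟨?_, ?_, ?_⟩
      · rw [List.nodup_cons]
        refine ⟨fun ha => ?_, h1⟩
        have := h2 a ha
        rw [hbit] at this
        simp at this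
      · intro b hb'
        rcases List.mem_cons.1 hb' with rfl | hb'
        · exact hb
        · have := h2 b hb'
          rw [hbit] at this
          simp at this
          exact this.1
      · intro p
        rw [h3 p, hbit]
        simp only [Bool.or_eq_true, decide_eq_true_eq, List.mem_cons]
        constructor
        · rintro ((h | h) | h)
          · exact Or.inl h
          · exact Or.inr (Or.inl h.symm)
          · exact Or.inr (Or.inr h)
        · rintro (h | h | h)
          · exact Or.inl (Or.inl h)
          · exact Or.inl (Or.inr h.symm)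
          · exact Or.inr h

/-- the context: strides `s`, weights `ws`, `V` = bit set of the positions of weight `D` -/
noncomputable def ctxChk (s ws : List ℕ) (D V : ℕ) : Bool := bitChk V ((monos ws D).map (pos s)) (nat_lit 0)

/-- all monomials of weight `D` have different positions; `V` is the set of these positions -/
def CtxOK (s ws : List ℕ) (D V : ℕ) : Prop :=
  s.length = ws.length ∧ (∀ w ∈ ws, 0 < w) ∧ ctxChk s ws D V = true

theorem CtxOK.inj {s ws : List ℕ} {D V : ℕ} (h : CtxOK s ws D V) {a b : List ℕ} (ha : a ∈ monos ws D)
    (hb : b ∈ monos ws D) (hab : pos s a = pos s b) : a = b :=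
  List.inj_on_of_nodup_map (bitChk_spec V _ 0 h.2.2).1 ha hb hab

theorem CtxOK.mem {s ws : List ℕ} {D V : ℕ} (h : CtxOK s ws D V) (p : ℕ) :
    V.testBit p = true ↔ ∃ m ∈ monos ws D, pos s m = p := by
  have := (bitChk_spec V _ 0 h.2.2).2.2 p
  rw [this]
  simp

end Pool.Agent.Mond61
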