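import Pool.Agent.Mond61.PolyCert

set_option autoImplicit false

namespace Pool.Agent.Mond61

open MvPolynomial

theorem digit_sum {ι : Type*} (S : Finset ι) (f q : ι → ℕ) (w : ℕ) (hq : Set.InjOn q (S : Set ι))
    (hf : ∑ i ∈ S, f i < 2 ^ w) {i₀ : ι} (hi : i₀ ∈ S) :
    (∑ i ∈ S, f i * 2 ^ (w * q i)) / 2 ^ (w * q i₀) % 2 ^ w = f i₀ := by
  classical
  have hB : 0 < 2 ^ w := Nat.two_pow_pos w
  simp only [pow_mul]
  generalize hBB : 2 ^ w = B at *
  have hsplit : ∑ i ∈ S, f i * B ^ q i = (∑ i ∈ S.filter (fun i => q i < q i₀), f i * B ^ q i) +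
      f i₀ * B ^ q i₀ + ∑ i ∈ S.filter (fun i => q i₀ < q i), f i * B ^ q i := by
    rw [← Finset.add_sum_erase S _ hi, ← Finset.sum_filter_add_sum_filter_not (S.erase i₀) (fun i => q i < q i₀)]
    have e1 : (S.erase i₀).filter (fun i => q i < q i₀) = S.filter (fun i => q i < q i₀) := by
      ext i
      simp only [Finset.mem_filter, Finset.mem_erase]
      constructor
      · rintro ⟨⟨_, h⟩, h'⟩
        exact ⟨h, h'⟩
      · rintro ⟨h, h'⟩
        refine ⟨⟨?_, h⟩, h'⟩
        rintro rfl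
        exact absurd h' (lt_irrefl _)
    have e2 : (S.erase i₀).filter (fun i => ¬ q i < q i₀) = S.filter (fun i => q i₀ < q i) := by
      ext i
      simp only [Finset.mem_filter, Finset.mem_erase]
      constructor
      · rintro ⟨⟨h1, h⟩, h'⟩
        refine ⟨h, lt_of_le_of_ne (not_lt.1 h') fun h2 => h1 (hq h hi h2.symm)⟩
      · rintro ⟨h, h'⟩
        refine ⟨⟨?_, h⟩, not_lt.2 h'.le⟩
        rintro rfl
        exact absurd h' (lt_irrefl _)
    rw [e1, e2]
    ring
  have hlow : ∑ i ∈ S.filter (fun i => q i < q i₀), f i * B ^ q i < B ^ q i₀ := by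
    rcases Nat.eq_zero_or_pos (q i₀) with h0 | h0
    · rw [Finset.sum_eq_zero]
      · exact pow_pos hB _
      · intro i hi'
        have := (Finset.mem_filter.1 hi').2
        omega
    · calc ∑ i ∈ S.filter (fun i => q i < q i₀), f i * B ^ q i
          ≤ ∑ i ∈ S.filter (fun i => q i < q i₀), f i * B ^ (q i₀ - 1) := by
            refine Finset.sum_le_sum fun i hi' => Nat.mul_le_mul_left _ (Nat.pow_le_pow_right hB ?_)
            have := (Finset.mem_filter.1 hi').2
            omega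
        _ = (∑ i ∈ S.filter (fun i => q i < q i₀), f i) * B ^ (q i₀ - 1) := by rw [Finset.sum_mul]
        _ ≤ (∑ i ∈ S, f i) * B ^ (q i₀ - 1) :=
            Nat.mul_le_mul_right _ (Finset.sum_le_sum_of_subset (Finset.filter_subset _ _))
        _ < B * B ^ (q i₀ - 1) := Nat.mul_lt_mul_of_pos_right hf (pow_pos hB _)
        _ = B ^ q i₀ := by rw [← pow_succ']; congr 1; omega
  obtain ⟨H, hH⟩ : ∃ H, ∑ i ∈ S.filter (fun i => q i₀ < q i), f i * B ^ q i = B ^ q i₀ * (B * H) := by
    refine ⟨∑ i ∈ S.filter (fun i => q i₀ < q i), f i * B ^ (q i - (q i₀ + 1)), ?_⟩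
    rw [Finset.mul_sum, Finset.mul_sum]
    refine Finset.sum_congr rfl fun i hi' => ?_
    have h1 := (Finset.mem_filter.1 hi').2
    have h2 : q i = q i₀ + 1 + (q i - (q i₀ + 1)) := by omega
    conv_lhs => rw [h2, pow_add, pow_succ]
    ring
  have hfi : f i₀ < B := lt_of_le_of_lt (Finset.single_le_sum (fun i _ => Nat.zero_le _) hi) hf
  rw [hsplit, hH]
  have e3 : (∑ i ∈ S.filter (fun i => q i < q i₀), f i * B ^ q i) + f i₀ * B ^ q i₀ + B ^ q i₀ * (B * H) =
      (∑ i ∈ S.filter (fun i => q i < q i₀), f i * B ^ q i) + B ^ q i₀ * (f i₀ + B * H) := by ring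
  rw [e3, Nat.add_mul_div_left _ _ (pow_pos hB _), Nat.div_eq_of_lt hlow, Nat.zero_add,
    Nat.add_mul_mod_self_left, Nat.mod_eq_of_lt hfi]

/-- if all digits of `M` are less than `c` and `p * c ≤ B` then the digits of `p * M` are `p` times those of `M` -/
theorem digit_mul (B p c M : ℕ) (hB : 0 < B) (hp : 0 < p) (hc : p * c ≤ B) (hM : ∀ j, M / B ^ j % B < c) :
    ∀ j, p * M / B ^ j % B = p * (M / B ^ j % B) := by
  have key : ∀ j, p * (M % B ^ j) < B ^ j := by
    intro j
    induction j with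
    | zero => simp [Nat.mod_one]
    | succ j ih =>
      have h1 : M % B ^ (j + 1) = M % B ^ j + B ^ j * (M / B ^ j % B) := by
        rw [pow_succ, Nat.mod_mul]
      have h2 := hM j
      have h3 : p * (M / B ^ j % B) + 1 ≤ B := by
        calc p * (M / B ^ j % B) + 1 ≤ p * (M / B ^ j % B) + p := by omega
          _ = p * (M / B ^ j % B + 1) := by ring
          _ ≤ p * c := Nat.mul_le_mul_left _ h2
          _ ≤ B := hc
      rw [h1, mul_add]
      calc p * (M % B ^ j) + p * (B ^ j * (M / B ^ j % B))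
          < B ^ j + p * (B ^ j * (M / B ^ j % B)) := by omega
        _ = B ^ j * (p * (M / B ^ j % B) + 1) := by ring
        _ ≤ B ^ j * B := Nat.mul_le_mul_left _ h3
        _ = B ^ (j + 1) := by rw [pow_succ]
  intro j
  have h1 : p * M = p * (M % B ^ j) + B ^ j * (p * (M / B ^ j)) := by
    conv_lhs => rw [← Nat.mod_add_div M (B ^ j)]
    ring
  rw [h1, Nat.add_mul_div_left _ _ (pow_pos hB _), Nat.div_eq_of_lt (key j), Nat.zero_add]
  have h2 : p * (M / B ^ j) = p * (M / B ^ j % B) + B * (p * (M / B ^ j / B)) := by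
    conv_lhs => rw [← Nat.mod_add_div (M / B ^ j) B]
    ring
  rw [h2, Nat.add_mul_mod_self_left, Nat.mod_eq_of_lt]
  have h3 := hM j
  calc p * (M / B ^ j % B) < p * (M / B ^ j % B) + 1 := Nat.lt_succ_self _
    _ ≤ p * (M / B ^ j % B) + p := by omega
    _ = p * (M / B ^ j % B + 1) := by ring
    _ ≤ p * c := Nat.mul_le_mul_left _ h3
    _ ≤ B := hc

end Pool.Agent.Mond61
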