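import Pool.Agent.Mond61.PolyCert2

set_option autoImplicit false

namespace Pool.Agent.Mond61

open MvPolynomial

/-- polynomial expressions; `lit D o n N`: a homogeneous polynomial of weight `D` given by `n` terms packed in `N`
(see `tc`, `tp`), all positions shifted by `o`; in `mul d a b` the number `d` is the weight of `a` -/
inductive Ex : Type
  | v (i : ℕ)
  | c (k : ℕ)
  | lit (D o n N : ℕ)
  | add (a b : Ex)
  | mul (d : ℕ) (a b : Ex)

/-- coefficient of the `i`-th term packed in `N`: `cb` bits coefficient, 24 bits position -/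
def tc (cb N i : ℕ) : ℕ := Nat.mod (Nat.shiftRight N (Nat.mul i (Nat.add cb (nat_lit 24)))) (Nat.pow (nat_lit 2) cb)

/-- position of the `i`-th term packed in `N` -/
def tp (cb N i : ℕ) : ℕ :=
  Nat.mod (Nat.shiftRight N (Nat.add (Nat.mul i (Nat.add cb (nat_lit 24))) cb)) (nat_lit 16777216)

/-- value of the packed terms: `∑ coefficient * 2 ^ (w * position)` -/
noncomputable def litK (w cb o n N : ℕ) : ℕ :=
  Nat.shiftLeft (Nat.rec (motive := fun _ => ℕ) (nat_lit 0)
    (fun i ih => Nat.add (Nat.shiftLeft (tc cb N i) (Nat.mul w (tp cb N i))) ih) n) (Nat.mul w o)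

/-- sum of the coefficients -/
noncomputable def litN (cb n N : ℕ) : ℕ :=
  Nat.rec (motive := fun _ => ℕ) (nat_lit 0) (fun i ih => Nat.add (tc cb N i) ih) n

/-- all positions are in the bit set `V` -/
noncomputable def litV (V cb o n N : ℕ) : Bool :=
  Nat.rec (motive := fun _ => Bool) true
    (fun i ih => Bool.rec (motive := fun _ => Bool) false ih
      (Nat.beq (Nat.land (Nat.shiftRight V (Nat.add o (tp cb N i))) (nat_lit 1)) (nat_lit 1))) n

theorem litK_eq (w cb o n N : ℕ) : litK w cb o n N = ∑ i ∈ Finset.range n, tc cb N i * 2 ^ (w * (o + tp cb N i)) := by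
  have h : ∀ n, (Nat.rec (motive := fun _ => ℕ) (nat_lit 0)
      (fun i ih => Nat.add (Nat.shiftLeft (tc cb N i) (Nat.mul w (tp cb N i))) ih) n : ℕ) =
      ∑ i ∈ Finset.range n, tc cb N i * 2 ^ (w * tp cb N i) := by
    intro n
    induction n with
    | zero => rfl
    | succ n ih =>
      rw [Finset.sum_range_succ, ← ih]
      refine (Nat.add_comm _ _).trans ?_
      congr 1
      exact Nat.shiftLeft_eq _ _
  unfold litK
  rw [h]
  refine (Nat.shiftLeft_eq _ _).trans ?_
  rw [Finset.sum_mul]
  refine Finset.sum_congr rfl fun i _ => ?_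
  change _ * 2 ^ (w * tp cb N i) * 2 ^ (w * o) = _
  rw [mul_assoc, ← pow_add]
  congr 2
  ring

theorem litN_eq (cb n N : ℕ) : litN cb n N = ∑ i ∈ Finset.range n, tc cb N i := by
  induction n with
  | zero => rfl
  | succ n ih =>
    rw [Finset.sum_range_succ, ← ih]
    exact Nat.add_comm _ _

theorem litV_spec (V cb o n N : ℕ) (h : litV V cb o n N = true) : ∀ i < n, V.testBit (o + tp cb N i) = true := by
  induction n with
  | zero => intro i hi; omega
  | succ n ih =>
    have h' : (Bool.rec (motive := fun _ => Bool) false (litV V cb o n N)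
      (Nat.beq (Nat.land (Nat.shiftRight V (o + tp cb N n)) 1) 1)) = true := h
    rw [bit_eq] at h'
    cases hb : V.testBit (o + tp cb N n) with
    | false => rw [hb] at h'; exact absurd h' (by simp)
    | true =>
      rw [hb] at h'
      intro i hi
      rcases Nat.lt_succ_iff_lt_or_eq.1 hi with hi | rfl
      · exact ih h' i hi
      · exact hb

section

variable (s ws : List ℕ)

/-- exponent list -> finitely supported function -/
noncomputable def toFs (m : List ℕ) : Fin s.length →₀ ℕ := Finsupp.equivFunOnFinite.symm fun i => m.getD i 0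

open Classical in
/-- the monomial of weight `D` at position `p` -/
noncomputable def decode (D p : ℕ) : Fin s.length →₀ ℕ :=
  if h : ∃ m ∈ monos ws D, pos s m = p then toFs s h.choose else 0

/-- position of a monomial -/
noncomputable def P (m : Fin s.length →₀ ℕ) : ℕ := ∑ i, s.get i * m i

/-- the weight of a variable -/
def wf (i : Fin s.length) : ℕ := ws.getD i 0

/-- weight of a monomial -/
noncomputable def wt (m : Fin s.length →₀ ℕ) : ℕ := Finsupp.weight (wf s ws) m

end

theorem pos_eq_sum : ∀ (s m : List ℕ), m.length = s.length → pos s m = ∑ i : Fin s.length, s.get i * m.getD i 0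
  | [], m, _ => by simp [pos_nil]
  | a :: s, [], h => by simp at h
  | a :: s, e :: m, h => by
    rw [pos_cons_cons, pos_eq_sum s m (by simpa using h)]
    rw [show (∑ i : Fin (a :: s).length, (a :: s).get i * (e :: m).getD i 0) =
      ∑ i : Fin (s.length + 1), (a :: s).get i * (e :: m).getD i 0 from rfl, Fin.sum_univ_succ]
    rfl

theorem P_toFs (s m : List ℕ) (h : m.length = s.length) : P s (toFs s m) = pos s m := by
  rw [pos_eq_sum s m h]
  rfl

theorem toFs_ofFn (s : List ℕ) (m : Fin s.length →₀ ℕ) : toFs s (List.ofFn m) = m := by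
  ext i
  simp [toFs, Finsupp.equivFunOnFinite]

theorem P_eq_pos (s : List ℕ) (m : Fin s.length →₀ ℕ) : P s m = pos s (List.ofFn m) := by
  conv_lhs => rw [← toFs_ofFn s m]
  exact P_toFs s _ (by simp)

theorem wt_eq (s ws : List ℕ) (h : s.length = ws.length) (m : List ℕ) (hm : m.length = s.length) :
    wt s ws (toFs s m) = pos ws m := by
  rw [pos_eq_sum ws m (by omega)]
  unfold wt
  rw [Finsupp.weight_apply, Finsupp.sum_fintype]
  swap
  · intro i
    exact zero_smul _ _
  have : ∀ n (hn : s.length = n), (∑ i : Fin s.length, toFs s m i • wf s ws i) =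
      ∑ i : Fin n, ws.getD i 0 * m.getD i 0 := by
    intro n hn
    subst hn
    refine Finset.sum_congr rfl fun i _ => ?_
    rw [smul_eq_mul, mul_comm]
    rfl
  rw [this _ h]
  refine Finset.sum_congr rfl fun i _ => ?_
  rw [List.getD_eq_getElem _ _ i.2]
  rfl

theorem ofFn_mem (s ws : List ℕ) (h : s.length = ws.length) (hw : ∀ w ∈ ws, 0 < w) (D : ℕ) (m : Fin s.length →₀ ℕ)
    (hm : wt s ws m = D) : List.ofFn m ∈ monos ws D := by
  rw [mem_monos hw]
  refine ⟨by simp [h], ?_⟩
  rw [← wt_eq s ws h _ (by simp), toFs_ofFn]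
  exact hm

theorem P_inj {s ws : List ℕ} {D V : ℕ} (h : CtxOK s ws D V) {a b : Fin s.length →₀ ℕ} (ha : wt s ws a = D)
    (hb : wt s ws b = D) (hab : P s a = P s b) : a = b := by
  rw [P_eq_pos, P_eq_pos] at hab
  have := h.inj (ofFn_mem s ws h.1 h.2.1 D a ha) (ofFn_mem s ws h.1 h.2.1 D b hb) hab
  rw [← toFs_ofFn s a, ← toFs_ofFn s b, this]

theorem decode_spec {s ws : List ℕ} {D V : ℕ} (h : CtxOK s ws D V) {p : ℕ} (hp : V.testBit p = true) :
    P s (decode s ws D p) = p ∧ wt s ws (decode s ws D p) = D := by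
  have h1 := (h.mem p).1 hp
  unfold decode
  rw [dif_pos h1]
  have h2 := h1.choose_spec
  have h3 := (mem_monos h.2.1).1 h2.1
  have h4 : h1.choose.length = s.length := by rw [h3.1, h.1]
  exact ⟨by rw [P_toFs s _ h4]; exact h2.2, by rw [wt_eq s ws h.1 _ h4]; exact h3.2⟩

/-- the contexts for all weights in the list `Vs` are correct -/
def AllOK (s ws Vs : List ℕ) : Prop := ∀ D, D < Vs.length → CtxOK s ws D (Vs.getD D 0)

noncomputable def Ex.mv (s ws : List ℕ) (cb : ℕ) : Ex → MvPolynomial (Fin s.length) ℕ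
  | .v i => if h : i < s.length then X ⟨i, h⟩ else 0
  | .c k => C k
  | .lit D o n N => ∑ i ∈ Finset.range n, monomial (decode s ws D (o + tp cb N i)) (tc cb N i)
  | .add a b => a.mv s ws cb + b.mv s ws cb
  | .mul _ a b => a.mv s ws cb * b.mv s ws cb

/-- Kronecker value -/
noncomputable def Ex.kv (s : List ℕ) (w cb : ℕ) (e : Ex) : ℕ :=
  Ex.rec (motive := fun _ => ℕ) (fun i => Nat.pow (nat_lit 2) (Nat.mul w (s.getD i 0))) (fun k => k)
    (fun _ o n N => litK w cb o n N) (fun _ _ x y => Nat.add x y) (fun _ _ _ x y => Nat.mul x y) e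

/-- bound for the sum of the coefficients -/
noncomputable def Ex.nrm (cb : ℕ) (e : Ex) : ℕ :=
  Ex.rec (motive := fun _ => ℕ) (fun _ => nat_lit 1) (fun k => k)
    (fun _ _ n N => litN cb n N) (fun _ _ x y => Nat.add x y) (fun _ _ _ x y => Nat.mul x y) e

/-- all literals are valid and the expression is homogeneous of degree `D` -/
noncomputable def Ex.hom (s ws Vs : List ℕ) (cb : ℕ) (e : Ex) : ℕ → Bool :=
  Ex.rec (motive := fun _ => ℕ → Bool) (fun i D => and (Nat.blt i s.length) (Nat.beq D (ws.getD i (nat_lit 0))))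
    (fun _ D => Nat.beq D (nat_lit 0))
    (fun D' o n N D => and (Nat.beq D' D) (and (Nat.blt D' Vs.length) (litV (Vs.getD D' (nat_lit 0)) cb o n N)))
    (fun _ _ x y D => and (x D) (y D)) (fun d _ _ x y D => and (Nat.ble d D) (and (x d) (y (Nat.sub D d)))) e

theorem Ex.hom_mv (s ws Vs : List ℕ) (cb : ℕ) (hV : AllOK s ws Vs) (e : Ex) :
    ∀ D, e.hom s ws Vs cb D = true → (e.mv s ws cb).IsWeightedHomogeneous (wf s ws) D := by
  induction e with
  | v i =>
    intro D h
    have h' : and (Nat.blt i s.length) (Nat.beq D (ws.getD i 0)) = true := h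
    rw [Bool.and_eq_true] at h'
    have h1 : i < s.length := by simpa [Nat.blt_eq] using h'.1
    have h2 : D = ws.getD i 0 := Nat.eq_of_beq_eq_true h'.2
    subst h2
    unfold Ex.mv
    rw [dif_pos h1]
    exact isWeightedHomogeneous_X _ _ _
  | c k =>
    intro D h
    have h2 : D = 0 := Nat.eq_of_beq_eq_true h
    subst h2
    exact isWeightedHomogeneous_C _ _
  | lit D' o n N =>
    intro D h
    have h' : and (Nat.beq D' D) (and (Nat.blt D' Vs.length) (litV (Vs.getD D' 0) cb o n N)) = true := h
    rw [Bool.and_eq_true, Bool.and_eq_true] at h'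
    obtain ⟨h1, h2, h3⟩ := h'
    have h1 : D' = D := Nat.eq_of_beq_eq_true h1
    subst h1
    have h2 : D' < Vs.length := by simpa [Nat.blt_eq] using h2
    have h4 := litV_spec _ _ _ _ _ h3
    unfold Ex.mv
    refine sum_mem (S := weightedHomogeneousSubmodule ℕ (wf s ws) D') fun i hi => ?_
    exact isWeightedHomogeneous_monomial _ _ _ (decode_spec (hV D' h2) (h4 i (Finset.mem_range.1 hi))).2
  | add a b iha ihb =>
    intro D h
    have h' : and (a.hom s ws Vs cb D) (b.hom s ws Vs cb D) = true := h
    rw [Bool.and_eq_true] at h'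
    exact (iha D h'.1).add (ihb D h'.2)
  | mul d a b iha ihb =>
    intro D h
    have h' : and (Nat.ble d D) (and (a.hom s ws Vs cb d) (b.hom s ws Vs cb (D - d))) = true := h
    rw [Bool.and_eq_true, Bool.and_eq_true] at h'
    have h1 : d ≤ D := Nat.le_of_ble_eq_true h'.1
    have := (iha d h'.2.1).mul (ihb _ h'.2.2)
    rw [Nat.add_sub_cancel' h1] at this
    exact this

theorem Ex.eval_kv (s ws Vs : List ℕ) (w cb : ℕ) (hV : AllOK s ws Vs) (e : Ex) :
    ∀ D, e.hom s ws Vs cb D = true → eval (fun i => 2 ^ (w * s.get i)) (e.mv s ws cb) = e.kv s w cb := by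
  induction e with
  | v i =>
    intro D h
    have h' : and (Nat.blt i s.length) (Nat.beq D (ws.getD i 0)) = true := h
    rw [Bool.and_eq_true] at h'
    have h1 : i < s.length := by simpa [Nat.blt_eq] using h'.1
    unfold Ex.mv
    rw [dif_pos h1, eval_X]
    change _ = 2 ^ (w * s.getD i 0)
    rw [List.getD_eq_getElem _ _ h1]
    rfl
  | c k =>
    intro D h
    exact eval_C _
  | lit D' o n N =>
    intro D h
    have h' : and (Nat.beq D' D) (and (Nat.blt D' Vs.length) (litV (Vs.getD D' 0) cb o n N)) = true := h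
    rw [Bool.and_eq_true, Bool.and_eq_true] at h'
    obtain ⟨h1, h2, h3⟩ := h'
    have h2 : D' < Vs.length := by simpa [Nat.blt_eq] using h2
    have h4 := litV_spec _ _ _ _ _ h3
    unfold Ex.mv
    change _ = litK w cb o n N
    rw [litK_eq, map_sum]
    refine Finset.sum_congr rfl fun t ht => ?_
    rw [eval_monomial, Finsupp.prod_fintype _ _ (fun _ => pow_zero _)]
    have h5 := (decode_spec (hV D' h2) (h4 t (Finset.mem_range.1 ht))).1
    congr 1
    conv_rhs => rw [← h5]
    unfold P
    rw [Finset.mul_sum, ← Finset.prod_pow_eq_pow_sum]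
    refine Finset.prod_congr rfl fun i _ => ?_
    rw [← pow_mul]
    congr 1
    ring
  | add a b iha ihb =>
    intro D h
    have h' : and (a.hom s ws Vs cb D) (b.hom s ws Vs cb D) = true := h
    rw [Bool.and_eq_true] at h'
    unfold Ex.mv
    rw [map_add, iha D h'.1, ihb D h'.2]
    rfl
  | mul d a b iha ihb =>
    intro D h
    have h' : and (Nat.ble d D) (and (a.hom s ws Vs cb d) (b.hom s ws Vs cb (D - d))) = true := h
    rw [Bool.and_eq_true, Bool.and_eq_true] at h'
    unfold Ex.mv
    rw [map_mul, iha d h'.2.1, ihb _ h'.2.2]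
    rfl

theorem Ex.eval_one (s ws : List ℕ) (cb : ℕ) (e : Ex) : eval (fun _ => 1) (e.mv s ws cb) ≤ e.nrm cb := by
  induction e with
  | v i =>
    unfold Ex.mv
    change _ ≤ 1
    split
    · rw [eval_X]
    · simp
  | c k =>
    unfold Ex.mv
    rw [eval_C]
    rfl
  | lit D' o n N =>
    unfold Ex.mv
    change _ ≤ litN cb n N
    rw [litN_eq, map_sum]
    apply le_of_eq
    refine Finset.sum_congr rfl fun t _ => ?_
    rw [eval_monomial]
    simp
  | add a b iha ihb =>
    unfold Ex.mv
    rw [map_add]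
    exact Nat.add_le_add iha ihb
  | mul d a b iha ihb =>
    unfold Ex.mv
    rw [map_mul]
    exact Nat.mul_le_mul iha ihb

/-- the coefficients are the digits of the Kronecker value -/
theorem Ex.digit (s ws Vs : List ℕ) (w cb D : ℕ) (hV : AllOK s ws Vs) (hD : D < Vs.length) (e : Ex)
    (h : e.hom s ws Vs cb D = true) (hn : e.nrm cb < 2 ^ w) (m : Fin s.length →₀ ℕ) (hm : wt s ws m = D) :
    e.kv s w cb / 2 ^ (w * P s m) % 2 ^ w = coeff m (e.mv s ws cb) := by
  classical
  have hhom := Ex.hom_mv s ws Vs cb hV e D h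
  set F := e.mv s ws cb with hF
  have hval : e.kv s w cb = ∑ d ∈ insert m F.support, coeff d F * 2 ^ (w * P s d) := by
    rw [← Ex.eval_kv s ws Vs w cb hV e D h, eval_eq']
    rw [← hF]
    have : ∑ d ∈ F.support, coeff d F * ∏ i, (fun i => 2 ^ (w * s.get i)) i ^ d i =
        ∑ d ∈ F.support, coeff d F * 2 ^ (w * P s d) := by
      refine Finset.sum_congr rfl fun d _ => ?_
      congr 1
      unfold P
      rw [Finset.mul_sum, ← Finset.prod_pow_eq_pow_sum]
      refine Finset.prod_congr rfl fun i _ => ?_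
      rw [← pow_mul]
      congr 1
      ring
    rw [this]
    refine Finset.sum_subset (Finset.subset_insert _ _) fun d _ hd => ?_
    rw [notMem_support_iff.1 hd, Nat.zero_mul]
  have hdeg : ∀ d ∈ insert m F.support, wt s ws d = D := by
    intro d hd
    rcases Finset.mem_insert.1 hd with rfl | hd
    · exact hm
    · exact hhom (mem_support_iff.1 hd)
  rw [hval]
  refine digit_sum (insert m F.support) (fun d => coeff d F) (P s) w ?_ ?_ (Finset.mem_insert_self _ _)
  · intro a ha b hb hab
    exact P_inj (hV D hD) (hdeg a ha) (hdeg b hb) hab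
  · have h1 : eval (fun _ => 1) F = ∑ d ∈ F.support, coeff d F := by
      rw [eval_eq]
      refine Finset.sum_congr rfl fun d _ => ?_
      simp
    have h2 : ∑ d ∈ insert m F.support, coeff d F = ∑ d ∈ F.support, coeff d F := by
      symm
      refine Finset.sum_subset (Finset.subset_insert _ _) fun d _ hd => ?_
      exact notMem_support_iff.1 hd
    rw [h2, ← h1]
    exact lt_of_le_of_lt (Ex.eval_one s ws cb e) hn

end Pool.Agent.Mond61
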