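import Pool.Agent.Mond61.PolyCert3

set_option autoImplicit false

namespace Pool.Agent.Mond61

open MvPolynomial

/-- value of the expression at a point of a commutative semiring -/
noncomputable def Ex.ev (s ws : List ℕ) (cb : ℕ) {A : Type*} [CommSemiring A] (x : ℕ → A) (e : Ex) : A :=
  eval₂ (Nat.castRingHom A) (fun i : Fin s.length => x i) (e.mv s ws cb)

section
variable (s ws : List ℕ) (cb : ℕ) {A : Type*} [CommSemiring A] (x : ℕ → A)

theorem Ex.ev_add (a b : Ex) : (Ex.add a b).ev s ws cb x = a.ev s ws cb x + b.ev s ws cb x := eval₂_add _ _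
theorem Ex.ev_mul (d : ℕ) (a b : Ex) : (Ex.mul d a b).ev s ws cb x = a.ev s ws cb x * b.ev s ws cb x := eval₂_mul _ _
theorem Ex.ev_c (k : ℕ) : (Ex.c k).ev s ws cb x = (k : A) := eval₂_C _ _ _
theorem Ex.ev_v (i : ℕ) (h : i < s.length) : (Ex.v i).ev s ws cb x = x i := by
  unfold Ex.ev Ex.mv
  rw [dif_pos h, eval₂_X]

end

/-- check of `e₁ = e₂` over the integers -/
noncomputable def eqChk (s ws Vs : List ℕ) (w cb D : ℕ) (e₁ e₂ : Ex) : Bool :=
  and (Nat.blt D Vs.length) (and (e₁.hom s ws Vs cb D) (and (e₂.hom s ws Vs cb D)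
    (and (Nat.blt (e₁.nrm cb) (Nat.pow (nat_lit 2) w)) (and (Nat.blt (e₂.nrm cb) (Nat.pow (nat_lit 2) w))
      (Nat.beq (e₁.kv s w cb) (e₂.kv s w cb))))))

theorem eqChk_mv (s ws Vs : List ℕ) (w cb D : ℕ) (e₁ e₂ : Ex) (hV : AllOK s ws Vs)
    (h : eqChk s ws Vs w cb D e₁ e₂ = true) : e₁.mv s ws cb = e₂.mv s ws cb := by
  unfold eqChk at h
  simp only [Bool.and_eq_true] at h
  obtain ⟨h1, h2, h3, h4, h5, h6⟩ := h
  have h1 : D < Vs.length := by simpa [Nat.blt_eq] using h1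
  have h4 : e₁.nrm cb < 2 ^ w := by simpa [Nat.blt_eq] using h4
  have h5 : e₂.nrm cb < 2 ^ w := by simpa [Nat.blt_eq] using h5
  have h6 : e₁.kv s w cb = e₂.kv s w cb := Nat.eq_of_beq_eq_true h6
  ext m
  by_cases hm : wt s ws m = D
  · rw [← Ex.digit s ws Vs w cb D hV h1 e₁ h2 h4 m hm, ← Ex.digit s ws Vs w cb D hV h1 e₂ h3 h5 m hm, h6]
  · rw [(Ex.hom_mv s ws Vs cb hV e₁ D h2).coeff_eq_zero m hm, (Ex.hom_mv s ws Vs cb hV e₂ D h3).coeff_eq_zero m hm]

theorem eqChk_ev (s ws Vs : List ℕ) (w cb D : ℕ) (e₁ e₂ : Ex) (hV : AllOK s ws Vs)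
    (h : eqChk s ws Vs w cb D e₁ e₂ = true) {A : Type*} [CommSemiring A] (x : ℕ → A) : e₁.ev s ws cb x = e₂.ev s ws cb x := by
  unfold Ex.ev
  rw [eqChk_mv s ws Vs w cb D e₁ e₂ hV h]

/-- `L` digits with the `t` high bits (of `w`) set -/
noncomputable def hmask (w t L : ℕ) : ℕ :=
  Nat.mul (Nat.div (Nat.sub (Nat.pow (nat_lit 2) (Nat.mul w L)) (nat_lit 1)) (Nat.sub (Nat.pow (nat_lit 2) w) (nat_lit 1)))
    (Nat.sub (Nat.pow (nat_lit 2) w) (Nat.pow (nat_lit 2) (Nat.sub w t)))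

theorem hmask_eq (w t L : ℕ) (hw : 0 < w) :
    hmask w t L = ∑ i ∈ Finset.range L, (2 ^ w - 2 ^ (w - t)) * (2 ^ w) ^ i := by
  have h2 : 2 ≤ 2 ^ w := by
    calc 2 = 2 ^ 1 := rfl
      _ ≤ 2 ^ w := Nat.pow_le_pow_right (by norm_num) hw
  change (2 ^ (w * L) - 1) / (2 ^ w - 1) * (2 ^ w - 2 ^ (w - t)) = _
  rw [pow_mul, ← Nat.geomSum_eq h2 L, Finset.sum_mul]
  exact Finset.sum_congr rfl fun i _ => mul_comm _ _

theorem const_digit (B H L j : ℕ) (hB : 0 < B) (hH : H < B) (hj : j < L) :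
    (∑ i ∈ Finset.range L, H * B ^ i) / B ^ j % B = H := by
  have hlow : ∀ j, ∑ i ∈ Finset.range j, H * B ^ i < B ^ j := by
    intro j
    induction j with
    | zero => simp
    | succ j ih =>
      rw [Finset.sum_range_succ]
      calc ∑ i ∈ Finset.range j, H * B ^ i + H * B ^ j < B ^ j + H * B ^ j := by omega
        _ = (H + 1) * B ^ j := by ring
        _ ≤ B * B ^ j := Nat.mul_le_mul_right _ hH
        _ = B ^ (j + 1) := by rw [pow_succ']
  obtain ⟨r, rfl⟩ : ∃ r, L = j + 1 + r := ⟨L - (j + 1), by omega⟩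
  rw [Finset.sum_range_add, Finset.sum_range_succ]
  have : ∑ i ∈ Finset.range r, H * B ^ (j + 1 + i) = B ^ j * (B * ∑ i ∈ Finset.range r, H * B ^ i) := by
    rw [Finset.mul_sum, Finset.mul_sum]
    refine Finset.sum_congr rfl fun i _ => ?_
    rw [pow_add, pow_succ]
    ring
  rw [this]
  have e : ∑ i ∈ Finset.range j, H * B ^ i + H * B ^ j + B ^ j * (B * ∑ i ∈ Finset.range r, H * B ^ i) =
      ∑ i ∈ Finset.range j, H * B ^ i + B ^ j * (H + B * ∑ i ∈ Finset.range r, H * B ^ i) := by ring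
  rw [e, Nat.add_mul_div_left _ _ (pow_pos hB _), Nat.div_eq_of_lt (hlow j), Nat.zero_add,
    Nat.add_mul_mod_self_left, Nat.mod_eq_of_lt hH]

theorem hmask_spec (w t L M : ℕ) (hw : 0 < w) (ht : t ≤ w) (ht0 : 0 < t) (hM : M < 2 ^ (w * L))
    (h : Nat.land M (hmask w t L) = 0) : ∀ j, M / (2 ^ w) ^ j % 2 ^ w < 2 ^ (w - t) := by
  intro j
  have hB : 0 < 2 ^ w := Nat.two_pow_pos w
  by_contra hcon
  rw [not_lt] at hcon
  by_cases hj : j < L
  · obtain ⟨b, hb1, hb2⟩ := Nat.exists_ge_and_testBit_of_ge_two_pow hcon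
    have hb3 : b < w := by
      by_contra h3
      rw [not_lt] at h3
      have : M / (2 ^ w) ^ j % 2 ^ w < 2 ^ b := lt_of_lt_of_le (Nat.mod_lt _ hB) (Nat.pow_le_pow_right (by norm_num) h3)
      rw [Nat.testBit_lt_two_pow this] at hb2
      exact absurd hb2 (by simp)
    have h4 : M.testBit (b + w * j) = true := by
      rw [Nat.testBit_mod_two_pow, ← pow_mul, Nat.testBit_div_two_pow] at hb2
      simpa [hb3] using hb2
    have h5 : (hmask w t L).testBit (b + w * j) = true := by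
      have hH : 2 ^ w - 2 ^ (w - t) < 2 ^ w := Nat.sub_lt hB (Nat.two_pow_pos _)
      have h6 := const_digit (2 ^ w) (2 ^ w - 2 ^ (w - t)) L j hB hH hj
      rw [← hmask_eq w t L hw] at h6
      have h7 : (hmask w t L / (2 ^ w) ^ j % 2 ^ w).testBit b = true := by
        rw [h6]
        have : 2 ^ w - 2 ^ (w - t) = 2 ^ (w - t) * (2 ^ t - 1) := by
          rw [Nat.mul_sub, ← pow_add, Nat.sub_add_cancel ht, mul_one]
        rw [this, Nat.testBit_two_pow_mul]
        simp only [ge_iff_le, hb1, decide_true, Bool.true_and]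
        rw [Nat.testBit_two_pow_sub_one]
        simp only [decide_eq_true_eq]
        omega
      rw [Nat.testBit_mod_two_pow, ← pow_mul, Nat.testBit_div_two_pow] at h7
      simpa [hb3] using h7
    have h8 : (Nat.land M (hmask w t L)).testBit (b + w * j) = true := by
      change (M &&& hmask w t L).testBit _ = true
      rw [Nat.testBit_and, h4, h5]
      rfl
    rw [h] at h8
    simp at h8
  · have h1 : M / (2 ^ w) ^ j = 0 := by
      rw [Nat.div_eq_of_lt]
      refine lt_of_lt_of_le hM ?_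
      rw [← pow_mul]
      exact Nat.pow_le_pow_right (by norm_num) (Nat.mul_le_mul_left _ (not_lt.1 hj))
    rw [h1, Nat.zero_mod] at hcon
    have := Nat.two_pow_pos (w - t)
    omega

/-- check of `e = 0` modulo `p`; `2 ^ t ≥ p`, the positions are less than `L` -/
noncomputable def modChk (s ws Vs : List ℕ) (w cb p t L D : ℕ) (e : Ex) : Bool :=
  and (Nat.blt D Vs.length) (and (e.hom s ws Vs cb D) (and (Nat.blt (e.nrm cb) (Nat.pow (nat_lit 2) w))
    (and (Nat.ble t w) (and (Nat.ble p (Nat.pow (nat_lit 2) t)) (and (Nat.blt (nat_lit 0) t) (and (Nat.blt (nat_lit 0) p)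
      (and (Nat.beq (Nat.mul p (Nat.div (e.kv s w cb) p)) (e.kv s w cb))
        (and (Nat.blt (Nat.div (e.kv s w cb) p) (Nat.pow (nat_lit 2) (Nat.mul w L)))
          (Nat.beq (Nat.land (Nat.div (e.kv s w cb) p) (hmask w t L)) (nat_lit 0))))))))))

theorem modChk_coeff (s ws Vs : List ℕ) (w cb p t L D : ℕ) (e : Ex) (hV : AllOK s ws Vs)
    (h : modChk s ws Vs w cb p t L D e = true) (m : Fin s.length →₀ ℕ) : p ∣ coeff m (e.mv s ws cb) := by
  unfold modChk at h
  simp only [Bool.and_eq_true] at h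
  obtain ⟨h1, h2, h3, h4, h5, h6, h7, h8, h9, h10⟩ := h
  have h1 : D < Vs.length := by simpa [Nat.blt_eq] using h1
  have h3 : e.nrm cb < 2 ^ w := by simpa [Nat.blt_eq] using h3
  have h4 : t ≤ w := Nat.le_of_ble_eq_true h4
  have h5 : p ≤ 2 ^ t := Nat.le_of_ble_eq_true h5
  have h6 : 0 < t := by simpa [Nat.blt_eq] using h6
  have h7 : 0 < p := by simpa [Nat.blt_eq] using h7
  have h8 : p * (e.kv s w cb / p) = e.kv s w cb := Nat.eq_of_beq_eq_true h8
  have h9 : e.kv s w cb / p < 2 ^ (w * L) := by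
    have : Nat.blt (e.kv s w cb / p) (2 ^ (w * L)) = true := h9
    simpa [Nat.blt_eq] using this
  have h10 : Nat.land (e.kv s w cb / p) (hmask w t L) = 0 := Nat.eq_of_beq_eq_true h10
  by_cases hm : wt s ws m = D
  · rw [← Ex.digit s ws Vs w cb D hV h1 e h2 h3 m hm]
    have hd := hmask_spec w t L _ (by omega) h4 h6 h9 h10
    have hpc : p * 2 ^ (w - t) ≤ 2 ^ w := by
      calc p * 2 ^ (w - t) ≤ 2 ^ t * 2 ^ (w - t) := Nat.mul_le_mul_right _ h5
        _ = 2 ^ w := by rw [← pow_add, Nat.add_sub_cancel' h4]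
    have := digit_mul (2 ^ w) p (2 ^ (w - t)) _ (Nat.two_pow_pos w) h7 hpc hd (P s m)
    rw [h8] at this
    rw [pow_mul, this]
    exact Dvd.intro _ rfl
  · rw [(Ex.hom_mv s ws Vs cb hV e D h2).coeff_eq_zero m hm]
    exact dvd_zero _

theorem modChk_ev (s ws Vs : List ℕ) (w cb p t L D : ℕ) (e : Ex) (hV : AllOK s ws Vs)
    (h : modChk s ws Vs w cb p t L D e = true) {A : Type*} [CommSemiring A] (hp : (p : A) = 0) (x : ℕ → A) :
    e.ev s ws cb x = 0 := by
  unfold Ex.ev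
  rw [eval₂_eq]
  refine Finset.sum_eq_zero fun m _ => ?_
  obtain ⟨q, hq⟩ := modChk_coeff s ws Vs w cb p t L D e hV h m
  rw [hq]
  have : (Nat.castRingHom A) (p * q) = 0 := by
    change ((p * q : ℕ) : A) = 0
    rw [Nat.cast_mul, hp, zero_mul]
  rw [this, zero_mul]

end Pool.Agent.Mond61
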